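import Pool.Agent.Helper24.SE.Rat
import Pool.Graph.R_pool_sql_team_seeded_2aa45f1a.Q282.UK.Ret
import Pool.Agent.Helper24.KD.Base
import Mathlib.Algebra.Homology.HomotopyCategory.Acyclic

/-!
# Power savings for the acyclicity of the values of additive functors on weight complexes
-/

set_option autoImplicit false
set_option linter.unusedSectionVars false

open CategoryTheory Limits AlgebraicGeometry MvPolynomial Filter Pool.Agent.Y116.UV
  Pool.Agent.Q282.UM Pool.Agent.Q282.UK Pool.Agent.Helper62.EC Pool.Agent.Helper24.KD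

namespace Pool.Agent.Helper24.SE

open Pool.Agent.Helper24.KE (V U toQ)
open Pool.Agent.Helper24.KZ (SumOf)

universe v u v' u'

variable {C : Type u} [Category.{v} C] [Preadditive C] [HasBinaryBiproducts C] [HasZeroObject C]
  [HasFiniteBiproducts C] {A : Type u'} [Category.{v'} A] [Abelian A]

/-- The complex `F(K)` is acyclic: all its homology objects are zero. -/
def Acy (F : C ⥤ A) [F.Additive] (K : HK C) : Prop :=
  ∀ n : ℤ, IsZero ((HomotopyCategory.homologyFunctor A (ComplexShape.up ℤ) n).obj (onHK F K))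

variable (F : C ⥤ A) [F.Additive]

lemma acy_iff (K : HK C) : Acy F K ↔ HomotopyCategory.subcategoryAcyclic A (onHK F K) :=
  (HomotopyCategory.mem_subcategoryAcyclic_iff _).symm

lemma acy_iso {K L : HK C} (e : Nonempty (K ≅ L)) (h : Acy F K) : Acy F L := by
  rw [acy_iff] at h ⊢
  exact (HomotopyCategory.subcategoryAcyclic A).prop_of_iso
    ((F.mapHomotopyCategory (ComplexShape.up ℤ)).mapIso e.some) h

lemma acy_mid {K L M : HK C} (h : IsDistinguished K L M) (hK : Acy F K) (hM : Acy F M) :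
    Acy F L := by
  rw [acy_iff] at hK hM ⊢
  obtain ⟨a, b, d, hT⟩ := h
  exact ObjectProperty.ext_of_isTriangulatedClosed₂ _ _
    ((F.mapHomotopyCategory (ComplexShape.up ℤ)).map_distinguished _ hT) hK hM

lemma acy_left {K L M : HK C} (h : IsDistinguished K L M) (hL : Acy F L) (hM : Acy F M) :
    Acy F K := by
  rw [acy_iff] at hL hM ⊢
  obtain ⟨a, b, d, hT⟩ := h
  exact ObjectProperty.ext_of_isTriangulatedClosed₁ _ _
    ((F.mapHomotopyCategory (ComplexShape.up ℤ)).map_distinguished _ hT) hL hM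

lemma acy_right {K L M : HK C} (h : IsDistinguished K L M) (hK : Acy F K) (hL : Acy F L) :
    Acy F M := by
  rw [acy_iff] at hK hL ⊢
  obtain ⟨a, b, d, hT⟩ := h
  exact ObjectProperty.ext_of_isTriangulatedClosed₃ _ _
    ((F.mapHomotopyCategory (ComplexShape.up ℤ)).map_distinguished _ hT) hK hL

lemma acy_terms (K : CochainComplex C ℤ) (h : ∀ i, IsZero (F.obj (K.X i))) : Acy F (toHK K) := by
  rw [acy_iff]
  refine (HomotopyCategory.quotient_obj_mem_subcategoryAcyclic_iff_exactAt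
    ((F.mapHomologicalComplex (ComplexShape.up ℤ)).obj K)).mpr fun n => ?_
  exact ShortComplex.exact_of_isZero_X₂ _ (h n)

lemma acy_object (M : C) (h : Acy F (inZero M)) : IsZero (F.obj M) := by
  rw [acy_iff] at h
  have h1 := (HomotopyCategory.quotient_obj_mem_subcategoryAcyclic_iff_exactAt
    ((F.mapHomologicalComplex (ComplexShape.up ℤ)).obj
      ((HomologicalComplex.single C (ComplexShape.up ℤ) 0).obj M))).mp h 0
  have h2 : ((HomologicalComplex.single A (ComplexShape.up ℤ) 0).obj (F.obj M)).ExactAt 0 :=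
    h1.of_iso ((HomologicalComplex.singleMapHomologicalComplex F (ComplexShape.up ℤ) 0).app M)
  rw [HomologicalComplex.exactAt_iff_isZero_homology] at h2
  exact h2.of_iso (HomologicalComplex.singleObjHomologySelfIso (ComplexShape.up ℤ) 0 (F.obj M)).symm

/-- Sums of motives. -/
lemma sumOf_zero {S : C → Prop} (hS : ∀ M, S M → IsZero (F.obj M)) {M : C} (h : SumOf S M) :
    IsZero (F.obj M) := by
  induction h with
  | zero M h => exact F.map_isZero h
  | of M h => exact hS M h
  | sum M N _ _ h1 h2 =>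
    have : PreservesBinaryBiproduct M N F :=
      (preservesBinaryBiproducts_of_preservesBiproducts F).preserves
    refine IsZero.of_iso ?_ (F.mapBiprod M N)
    exact (biprod_isZero_iff _ _).mpr ⟨h1, h2⟩
  | iso M N e _ h => exact h.of_iso (F.mapIso e.some.symm)

section general

variable {k : Type} [Field k] {D : Weights k C} (hD : IsWeightComplex D)

variable (D) in
/-- `F(W(X))` is acyclic. -/
def AW (X : Sch k) : Prop := Acy F (D.W X)

include hD

theorem cls_aw : Cls True (AW F D) where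
  iso hX e h := acy_iso F (hD.iso hX e) h
  total i j h ht hZ hU := acy_mid F (hD.triangle i j h ht) hU hZ
  opened i j h ht hZ hX := acy_left F (hD.triangle i j h ht) hX hZ
  closed i j h ht hX hU := acy_right F (hD.triangle i j h ht) hU hX

lemma aw_proj {X : Sch k} (hX : IsSmoothProjective X) (h : AW F D X) : IsZero (F.obj (D.h X)) :=
  acy_object F _ (acy_iso F (hD.projective X hX) h)

theorem aw_dim {N : ℕ} (h : ∀ Y : Sch k, IsSmoothProjective Y →
    topologicalKrullDim Y.left ≤ N → IsZero (F.obj (D.h Y))) (X : Sch k) (hX : FT True X)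
    (hN : topologicalKrullDim X.left ≤ N) : AW F D X := by
  obtain ⟨K, _, e, hK⟩ := hD.terms X hX N hN
  refine acy_iso F ⟨e.some.symm⟩ (acy_terms F K fun i => sumOf_zero F ?_ (hK i))
  rintro M ⟨Y, h1, h2, ⟨e⟩⟩
  exact (h Y h1 h2).of_iso (F.mapIso e.symm)

/-- Affine spaces: only the twists by `n ≤ 0` are needed. -/
lemma aw_space (ht : ∀ (n : ℤ) (Y : Sch k), n ≤ 0 → IsSmoothProjective Y →
    topologicalKrullDim Y.left ≤ (0 : ℕ) → IsZero (F.obj ((D.tw n).obj (D.h Y)))) (r : ℕ) :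
    AW F D (aff k (MvPolynomial (Fin r) k)) := by
  obtain ⟨e⟩ := hD.bundle k (r + 1) _ (aff k k) _ (compl_id (k := k) k r)
  have h0 : topologicalKrullDim (aff k k).left ≤ (0 : ℕ) := by
    rw [Pool.Agent.Z125.UN.topDim_aff, ringKrullDim_eq_zero_of_field]
    exact le_rfl
  obtain ⟨K, _, e', hK⟩ := hD.terms (aff k k) (ft_aff True) 0 h0
  have h1 : Acy F (onHK (D.tw (1 - ((r + 1 : ℕ) : ℤ))) (D.W (aff k k))) := by
    refine acy_iso F ⟨((D.tw (1 - ((r + 1 : ℕ) : ℤ))).mapHomotopyCategory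
      (ComplexShape.up ℤ)).mapIso e'.some.symm⟩ ?_
    refine acy_terms F (((D.tw (1 - ((r + 1 : ℕ) : ℤ))).mapHomologicalComplex
      (ComplexShape.up ℤ)).obj K) fun i => ?_
    refine sumOf_zero (D.tw (1 - ((r + 1 : ℕ) : ℤ)) ⋙ F) ?_ (hK i)
    rintro M ⟨Y, a1, a2, ⟨e⟩⟩
    exact (ht _ Y (by push_cast; omega) a1 a2).of_iso
      ((D.tw (1 - ((r + 1 : ℕ) : ℤ)) ⋙ F).mapIso e.symm)
  have h2 : AW F D (jouS (f1 k r)) := acy_iso F ⟨e.symm⟩ h1
  exact iso_alg (cls_aw F hD) (jouOne k r) h2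

end general

section rational

variable {D : Weights ℚ C} (hD : IsWeightComplex D)
  (ht : ∀ (n : ℤ) (Y : Sch ℚ), n ≤ 0 → IsSmoothProjective Y →
    topologicalKrullDim Y.left ≤ (0 : ℕ) → IsZero (F.obj ((D.tw n).obj (D.h Y))))

include hD ht

theorem aw_dim_iff (d : ℕ) : (∀ Y : Sch ℚ, IsSmoothProjective Y →
    topologicalKrullDim Y.left ≤ d → IsZero (F.obj (D.h Y))) ↔
      Saving (r := d + 1) (fun P => ¬ AW F D (U (toQ P))) := by
  refine Iff.trans ?_ (saving_dim (cls_aw F hD) (aw_space F hD ht) d)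
  exact ⟨fun h X hX hd => aw_dim F hD h X hX hd,
    fun h Y hY hd => aw_proj F hD hY (h Y (ft_projective hY) hd)⟩

theorem aw_all_iff : (∀ Y : Sch ℚ, IsSmoothProjective Y → IsZero (F.obj (D.h Y))) ↔
    ∃ᶠ r : ℕ in atTop, Saving (r := r) (fun P => ¬ AW F D (U (toQ P))) := by
  refine Iff.trans ?_ (saving_all (cls_aw F hD) (aw_space F hD ht))
  constructor
  · intro h X hX
    refine of_affine' (P := AW F D) (cls_aw F hD).iso (cls_aw F hD).total
      (fun B _ _ _ => ?_) X hX
    obtain ⟨N, hN⟩ := Pool.Agent.Helper24.KZ.exists_dim_aff (k := ℚ) B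
    exact aw_dim F hD (fun Y hY _ => h Y hY) _ (ft_aff True) hN
  · exact fun h Y hY => aw_proj F hD hY (h Y (ft_projective hY))

theorem aw_full {r : ℕ} {G : MvPolynomial (Fin r) ℤ} (hG : ¬ AW F D (U (toQ G))) {ε : ℝ}
    (hε : 0 < ε) : ∀ᶠ D' : ℕ in atTop, ∀ᶠ B : ℕ in atTop, ((Box r D' B).ncard : ℝ) ^ (1 - ε) <
      ((Exc (r := r) (fun P => ¬ AW F D (U (toQ P))) D' B).ncard : ℝ) :=
  full_rat (cls_aw F hD) (aw_space F hD ht) hG hε

theorem aw_disjoint {r : ℕ} (P G : MvPolynomial (Fin r) ℤ)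
    (hPG : Ideal.span {MvPolynomial.map (algebraMap ℤ ℚ) G} ⊔
      Ideal.span {MvPolynomial.map (algebraMap ℤ ℚ) P} = ⊤)
    (hP : ¬ AW F D (U (toQ P))) :
    ¬ AW F D (U (toQ G)) ∨ ¬ AW F D (U (toQ (P * G))) := by
  refine disj_compl (cls_aw F hD) (aw_space F hD ht r)
    (MvPolynomial.map (algebraMap ℤ ℚ) P)
    (MvPolynomial.map (algebraMap ℤ ℚ) G) hPG hP |>.imp id fun h => ?_
  have h1 : toQ (P * G) = MvPolynomial.map (algebraMap ℤ ℚ) P *
      MvPolynomial.map (algebraMap ℤ ℚ) G := map_mul _ _ _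
  rw [h1]
  exact h

end rational

end Pool.Agent.Helper24.SE
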