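import Pool.Agent.Helper24.KE.Nrm

/-!
# Exceptional polynomials: one exception gives a set of full logarithmic density
-/

set_option autoImplicit false

open MvPolynomial Filter

open Pool.Agent.Helper24.KE (nrm nrm_sum nrm_monomial nrm_mul nrm_add nrm_one)

namespace Pool.Agent.Helper24.SE

/-- The polynomials `F ∈ ℤ[x_1, …, x_r]` of degree at most `D` in each variable, for which the sum of the
absolute values of the coefficients is at most `B`. -/
def Box (r D B : ℕ) : Set (MvPolynomial (Fin r) ℤ) := {F | (∀ i, F.degreeOf i ≤ D) ∧ nrm F ≤ B}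

/-- The `F` in the box for which `Bad F`. -/
def Exc {r : ℕ} (Bad : MvPolynomial (Fin r) ℤ → Prop) (D B : ℕ) : Set (MvPolynomial (Fin r) ℤ) :=
  {F | F ∈ Box r D B ∧ Bad F}

/-- the exponent as a finitely supported function -/
noncomputable def ex {r D : ℕ} (s : Fin r → Fin (D + 1)) : Fin r →₀ ℕ :=
  Finsupp.equivFunOnFinite.symm fun i => (s i : ℕ)

lemma ex_apply {r D : ℕ} (s : Fin r → Fin (D + 1)) (i : Fin r) : ex s i = s i := rfl

lemma ex_inj {r D : ℕ} : Function.Injective (ex : (Fin r → Fin (D + 1)) → Fin r →₀ ℕ) := by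
  intro s t h
  funext i
  have := DFunLike.congr_fun h i
  rw [ex_apply, ex_apply] at this
  exact Fin.ext this

/-- the coefficients -/
noncomputable def cf (r D : ℕ) (F : MvPolynomial (Fin r) ℤ) (s : Fin r → Fin (D + 1)) : ℤ :=
  coeff (ex s) F

lemma cf_inj {r D B : ℕ} : Set.InjOn (cf r D) (Box r D B) := by
  intro F hF G hG h
  have key : ∀ P ∈ Box r D B, ∀ s : Fin r →₀ ℕ, (¬ ∀ i, s i ≤ D) → coeff s P = 0 := by
    intro P hP s hs
    by_contra h1
    apply hs
    intro i
    have h2 : s ∈ P.support := mem_support_iff.mpr h1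
    exact (monomial_le_degreeOf i h2).trans (hP.1 i)
  ext s
  by_cases hs : ∀ i, s i ≤ D
  · have h1 := congrFun h fun i => (⟨s i, Nat.lt_succ_of_le (hs i)⟩ : Fin (D + 1))
    have h2 : ex (D := D) (fun i => (⟨s i, Nat.lt_succ_of_le (hs i)⟩ : Fin (D + 1))) = s := by
      ext i
      rfl
    unfold cf at h1
    rwa [h2] at h1
  · rw [key F hF s hs, key G hG s hs]

lemma coeff_le_nrm {r : ℕ} (F : MvPolynomial (Fin r) ℤ) (s : Fin r →₀ ℕ) :
    (coeff s F).natAbs ≤ nrm F := by
  by_cases hs : s ∈ F.support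
  · exact Finset.single_le_sum (f := fun s => (coeff s F).natAbs) (fun _ _ => Nat.zero_le _) hs
  · rw [notMem_support_iff] at hs
    rw [hs]
    exact Nat.zero_le _

/-- the coefficients of the polynomials in the box -/
noncomputable def img (r D B : ℕ) : Finset ((Fin r → Fin (D + 1)) → ℤ) :=
  Fintype.piFinset fun _ => Finset.Icc (-(B : ℤ)) B

lemma cf_mem {r D B : ℕ} {F : MvPolynomial (Fin r) ℤ} (hF : F ∈ Box r D B) :
    cf r D F ∈ (img r D B : Set ((Fin r → Fin (D + 1)) → ℤ)) := by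
  rw [Finset.mem_coe, img, Fintype.mem_piFinset]
  intro s
  have h1 := (coeff_le_nrm F (ex s)).trans hF.2
  rw [Finset.mem_Icc]
  change -(B : ℤ) ≤ coeff (ex s) F ∧ coeff (ex s) F ≤ B
  omega

lemma finite_box (r D B : ℕ) : (Box r D B).Finite :=
  Set.Finite.of_injOn (fun _ hF => cf_mem hF) cf_inj (img r D B).finite_toSet

lemma card_box_le (r D B : ℕ) : (Box r D B).ncard ≤ (2 * B + 1) ^ ((D + 1) ^ r) := by
  have h1 := Set.ncard_le_ncard_of_injOn (cf r D) (fun _ hF => cf_mem hF)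
    (cf_inj (r := r) (D := D) (B := B)) (img r D B).finite_toSet
  refine h1.trans ?_
  rw [Set.ncard_coe_finset, img, Fintype.card_piFinset, Finset.prod_const, Finset.card_univ,
    Int.card_Icc, Fintype.card_fun, Fintype.card_fin, Fintype.card_fin]
  refine Nat.pow_le_pow_left ?_ _
  omega

/-- the polynomial with given coefficients -/
noncomputable def mk {r D : ℕ} (g : (Fin r → Fin (D + 1)) → ℕ) : MvPolynomial (Fin r) ℤ :=
  ∑ s, monomial (ex s) (g s : ℤ)

lemma coeff_mk {r D : ℕ} (g : (Fin r → Fin (D + 1)) → ℕ) (t : Fin r → Fin (D + 1)) :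
    coeff (ex t) (mk g) = g t := by
  classical
  unfold mk
  rw [coeff_sum]
  simp only [coeff_monomial]
  rw [Finset.sum_eq_single t]
  · rw [if_pos rfl]
  · intro s _ hs
    exact if_neg fun h => hs (ex_inj h)
  · intro h
    exact absurd (Finset.mem_univ t) h

lemma le_card_box (r D B : ℕ) :
    (B / (D + 1) ^ r + 1) ^ ((D + 1) ^ r) ≤ (Box r D B).ncard := by
  classical
  set N := (D + 1) ^ r with hN
  set b := B / N with hb
  let T : Finset ((Fin r → Fin (D + 1)) → ℕ) := Fintype.piFinset fun _ => Finset.range (b + 1)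
  have hT : T.card = (b + 1) ^ N := by
    rw [Fintype.card_piFinset, Finset.prod_const, Finset.card_univ, Finset.card_range,
      Fintype.card_fun, Fintype.card_fin, Fintype.card_fin]
  rw [← hT, ← Set.ncard_coe_finset]
  refine Set.ncard_le_ncard_of_injOn mk (fun g hg => ⟨fun i => ?_, ?_⟩) ?_ (finite_box r D B)
  · rw [degreeOf_le_iff]
    intro m hm
    unfold mk at hm
    obtain ⟨s, _, hs⟩ := Finset.mem_biUnion.mp (support_sum hm)
    have h1 := Finset.mem_singleton.mp (support_monomial_subset hs)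
    rw [h1, ex_apply]
    exact Nat.le_of_lt_succ (s i).2
  · unfold mk
    refine (nrm_sum _ _).trans ?_
    have h1 : ∀ s ∈ (Finset.univ : Finset (Fin r → Fin (D + 1))),
        nrm (monomial (ex s) (g s : ℤ)) ≤ b := by
      intro s _
      refine (nrm_monomial _ _).trans ?_
      have h2 := Finset.mem_range.mp ((Fintype.mem_piFinset.mp (Finset.mem_coe.mp hg)) s)
      omega
    refine (Finset.sum_le_card_nsmul _ _ _ h1).trans ?_
    rw [Finset.card_univ, Fintype.card_fun, Fintype.card_fin, Fintype.card_fin, smul_eq_mul, ← hN,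
      hb]
    exact Nat.mul_div_le B N
  · intro g _ g' _ h
    funext t
    have h1 := congrArg (coeff (ex t)) h
    rw [coeff_mk, coeff_mk] at h1
    exact_mod_cast h1

lemma box_mono {r D D' B B' : ℕ} (hD : D ≤ D') (hB : B ≤ B') : Box r D B ⊆ Box r D' B' :=
  fun _ hF => ⟨fun i => (hF.1 i).trans hD, hF.2.trans hB⟩

/-- **Many exceptions.** -/
theorem many {r : ℕ} {Bad : MvPolynomial (Fin r) ℤ → Prop}
    (h : ∀ G P, Bad G → Bad (1 + G * P) ∨ Bad (G * (1 + G * P))) {G : MvPolynomial (Fin r) ℤ}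
    (hG : Bad G) (hG0 : G ≠ 0) :
    ∃ c : ℕ, 1 ≤ c ∧ ∀ D B : ℕ, 1 ≤ B →
      (Box r D B).ncard ≤ 2 * (Exc Bad (D + c) (c * B)).ncard := by
  classical
  set g := G.totalDegree with hg
  set n := nrm G with hn
  refine ⟨2 * g + (1 + n) ^ 2, ?_, fun D B hB => ?_⟩
  · have : 1 ≤ (1 + n) ^ 2 := Nat.one_le_pow _ _ (by omega)
    omega
  set c := 2 * g + (1 + n) ^ 2 with hc
  have hc1 : 2 * g ≤ c := by omega
  have hc2 : (1 + n) ^ 2 ≤ c := by omega
  have hfin : (Exc Bad (D + c) (c * B)).Finite := (finite_box r _ _).subset fun F hF => hF.1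
  have hT : ((Exc Bad (D + c) (c * B)) ×ˢ (Set.univ : Set Bool)).ncard =
      2 * (Exc Bad (D + c) (c * B)).ncard := by
    rw [Set.ncard_prod, Set.ncard_univ, Nat.card_eq_fintype_card, Fintype.card_bool, mul_comm]
  rw [← hT]
  have hGd : ∀ i, G.degreeOf i ≤ g := fun i => degreeOf_le_totalDegree G i
  have hdeg : ∀ P : MvPolynomial (Fin r) ℤ, ∀ i, P.degreeOf i ≤ D →
      (1 + G * P).degreeOf i ≤ g + D := fun P i hP => by
    refine (degreeOf_add_le _ _ _).trans (max_le ?_ ?_)
    · have : (1 : MvPolynomial (Fin r) ℤ).degreeOf i = 0 := degreeOf_one i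
      rw [this]
      exact Nat.zero_le _
    · exact (degreeOf_mul_le _ _ _).trans (Nat.add_le_add (hGd i) hP)
  have hnrm : ∀ P : MvPolynomial (Fin r) ℤ, nrm P ≤ B → nrm (1 + G * P) ≤ (1 + n) * B :=
    fun P hP => by
      have h1 := nrm_add 1 (G * P)
      have h2 := nrm_one (σ := Fin r)
      have h3 := nrm_mul G P
      have h4 : nrm G * nrm P ≤ n * B := Nat.mul_le_mul_left _ hP
      rw [add_mul, one_mul]
      omega
  have hmem1 : ∀ P ∈ Box r D B, 1 + G * P ∈ Box r (D + c) (c * B) := fun P hP => by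
    refine ⟨fun i => (hdeg P i (hP.1 i)).trans (by omega), (hnrm P hP.2).trans ?_⟩
    refine Nat.mul_le_mul_right _ (le_trans ?_ hc2)
    nlinarith
  have hmem2 : ∀ P ∈ Box r D B, G * (1 + G * P) ∈ Box r (D + c) (c * B) := fun P hP => by
    refine ⟨fun i => (degreeOf_mul_le _ _ _).trans ?_, ?_⟩
    · have h1 := hdeg P i (hP.1 i)
      have h2 := hGd i
      omega
    · refine (nrm_mul _ _).trans ?_
      refine (Nat.mul_le_mul_left _ (hnrm P hP.2)).trans ?_
      rw [← mul_assoc]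
      refine Nat.mul_le_mul_right _ (le_trans ?_ hc2)
      nlinarith
  refine Set.ncard_le_ncard_of_injOn (fun P => if Bad (1 + G * P) then
    (1 + G * P, false) else (G * (1 + G * P), true)) ?_ ?_ (hfin.prod Set.finite_univ)
  · intro P hP
    show (if Bad (1 + G * P) then
      (1 + G * P, false) else (G * (1 + G * P), true)) ∈ _
    split_ifs with h1
    · exact ⟨⟨hmem1 P hP, h1⟩, Set.mem_univ _⟩
    · exact ⟨⟨hmem2 P hP, (h G P hG).resolve_left h1⟩, Set.mem_univ _⟩
  · intro P _ P' _ h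
    dsimp only at h
    split_ifs at h with h1 h2 h2
    · have h3 := (Prod.ext_iff.mp h).1
      exact mul_left_cancel₀ hG0 (add_left_cancel h3)
    · exact absurd (Prod.ext_iff.mp h).2 (by simp)
    · exact absurd (Prod.ext_iff.mp h).2 (by simp)
    · have h3 := (Prod.ext_iff.mp h).1
      exact mul_left_cancel₀ hG0 (add_left_cancel (mul_left_cancel₀ hG0 h3))

/-- The exceptional set is smaller than the box by a power: for some `ε > 0`, for infinitely many `D` there
are arbitrarily large `B` with `#Exc(D, B) ≤ #Box(D, B) ^ (1 - ε)`. -/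
def Saving {r : ℕ} (Bad : MvPolynomial (Fin r) ℤ → Prop) : Prop :=
  ∃ ε : ℝ, 0 < ε ∧ ∃ᶠ D : ℕ in atTop, ∃ᶠ B : ℕ in atTop,
    ((Exc Bad D B).ncard : ℝ) ≤ ((Box r D B).ncard : ℝ) ^ (1 - ε)

/-- the comparison of the exponents -/
lemma exists_deg (r c : ℕ) {ε : ℝ} (hε : 0 < ε) : ∃ D₀ : ℕ, ∀ D ≥ D₀,
    (1 - ε) * ((D + 1 : ℕ) : ℝ) ^ r ≤ ((D - c + 1 : ℕ) : ℝ) ^ r := by
  obtain ⟨M, hM⟩ := exists_nat_gt ((r * c : ℝ) / ε)
  refine ⟨M + c, fun D hD => ?_⟩
  have hD1 : (0 : ℝ) < D + 1 := by positivity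
  have h0 : ((D - c + 1 : ℕ) : ℝ) = (D + 1) * (1 + (-(c / (D + 1)))) := by
    have : c ≤ D := by omega
    push_cast [Nat.cast_sub this]
    field_simp
    ring
  have hc : (c : ℝ) / (D + 1) ≤ 1 := by
    rw [div_le_one hD1]
    have : (c : ℝ) ≤ D := by exact_mod_cast (by omega : c ≤ D)
    linarith
  have h1 := one_add_mul_le_pow (a := (-((c : ℝ) / (D + 1)))) (by linarith) r
  have h2 : (r * c : ℝ) / (D + 1) ≤ ε := by
    rw [div_le_iff₀ hD1]
    have h3 : (r * c : ℝ) < M * ε := (div_lt_iff₀ hε).mp hM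
    have h4 : (M : ℝ) ≤ D := by exact_mod_cast (by omega : M ≤ D)
    nlinarith
  rw [h0, mul_pow, mul_comm]
  push_cast
  refine mul_le_mul_of_nonneg_left ?_ (by positivity)
  refine le_trans ?_ h1
  have h5 : (r : ℝ) * -((c : ℝ) / (D + 1)) = -((r * c : ℝ) / (D + 1)) := by ring
  rw [h5]
  linarith

/-- **One exception gives a set of exceptions of full logarithmic density.** -/
theorem full {r : ℕ} {Bad : MvPolynomial (Fin r) ℤ → Prop}
    (h : ∀ G P, Bad G → Bad (1 + G * P) ∨ Bad (G * (1 + G * P))) {G : MvPolynomial (Fin r) ℤ}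
    (hG : Bad G) (hG0 : G ≠ 0) {ε : ℝ} (hε : 0 < ε) :
    ∀ᶠ D : ℕ in atTop, ∀ᶠ B : ℕ in atTop,
      ((Box r D B).ncard : ℝ) ^ (1 - ε) < ((Exc Bad D B).ncard : ℝ) := by
  -- we may assume that `ε ≤ 1`
  wlog hε1 : ε ≤ 1 generalizing ε
  · filter_upwards [this (ε := 1) one_pos le_rfl] with D hD
    filter_upwards [hD] with B hB
    refine lt_of_le_of_lt ?_ hB
    have h1 : (1 : ℝ) ≤ ((Box r D B).ncard : ℝ) := by
      have h2 : 0 < (Box r D B).ncard := lt_of_lt_of_le (by positivity) (le_card_box r D B)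
      exact_mod_cast h2
    exact Real.rpow_le_rpow_of_exponent_le h1 (by linarith [not_le.mp hε1])
  obtain ⟨c, hc, hmany⟩ := many h hG hG0
  obtain ⟨D₀, hD₀⟩ := exists_deg r c (half_pos hε)
  filter_upwards [eventually_ge_atTop (D₀ + c)] with D hD
  set N := (D + 1) ^ r with hN
  set N' := (D - c + 1) ^ r with hN'
  have hNN : (1 - ε / 2) * (N : ℝ) ≤ N' := by
    have := hD₀ D (by omega)
    rw [hN, hN']
    push_cast at this ⊢
    exact this
  have hN1 : (1 : ℝ) ≤ N := by exact_mod_cast Nat.one_le_pow _ _ (by omega)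
  have hN'1 : 1 ≤ N' := Nat.one_le_pow _ _ (by omega)
  have hN'0 : (0 : ℝ) < N' := by exact_mod_cast hN'1
  set δ : ℝ := N' - (1 - ε) * N with hδ
  have hδ0 : 0 < δ := by nlinarith
  have hlog : Tendsto (fun B : ℕ => Real.log (B : ℝ)) atTop atTop :=
    Real.tendsto_log_atTop.comp tendsto_natCast_atTop_atTop
  filter_upwards [eventually_ge_atTop c, eventually_ge_atTop 1,
    hlog.eventually_gt_atTop ((N' * Real.log (2 * c * N') + Real.log 2 + N * Real.log 3) / δ)]
    with B hBc hB1 hB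
  have hB0 : (0 : ℝ) < B := by exact_mod_cast hB1
  have hc0 : (0 : ℝ) < c := by exact_mod_cast hc
  -- lower bound for the exceptions
  have hmono : Exc Bad (D - c + c) (c * (B / c)) ⊆ Exc Bad D B := fun F hF =>
    ⟨box_mono (by omega) (Nat.mul_div_le B c) hF.1, hF.2⟩
  have hfin : (Exc Bad D B).Finite := (finite_box r _ _).subset fun F hF => hF.1
  have h1 : (B / c / N' + 1) ^ N' ≤ 2 * (Exc Bad D B).ncard :=
    (le_card_box r (D - c) (B / c)).trans ((hmany (D - c) (B / c) ((Nat.one_le_div_iff hc).mpr hBc)).trans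
      (Nat.mul_le_mul_left _ (Set.ncard_le_ncard hmono hfin)))
  have h2 : (B : ℝ) / (2 * c * N') ≤ ((B / c / N' + 1 : ℕ) : ℝ) := by
    rw [Nat.div_div_eq_div_mul]
    have h3 : (B : ℝ) / ((c * N' : ℕ) : ℝ) < ((B / (c * N') + 1 : ℕ) : ℝ) := by
      rw [div_lt_iff₀ (by exact_mod_cast Nat.mul_pos hc hN'1)]
      have h4 := Nat.lt_mul_div_succ B (Nat.mul_pos hc hN'1)
      rw [mul_comm] at h4
      exact_mod_cast h4
    refine le_trans ?_ h3.le
    push_cast
    refine div_le_div_of_nonneg_left hB0.le (by positivity) ?_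
    nlinarith [mul_pos hc0 hN'0]
  have h5 : ((B : ℝ) / (2 * c * N')) ^ N' ≤ 2 * ((Exc Bad D B).ncard : ℝ) := by
    refine (pow_le_pow_left₀ (by positivity) h2 N').trans ?_
    exact_mod_cast h1
  -- upper bound for the box
  have h6 : ((Box r D B).ncard : ℝ) ≤ (3 * B) ^ N := by
    have h7 : (Box r D B).ncard ≤ (3 * B) ^ N :=
      (card_box_le r D B).trans (Nat.pow_le_pow_left (by omega) _)
    exact_mod_cast h7
  have h8 : ((Box r D B).ncard : ℝ) ^ (1 - ε) ≤ ((3 * B : ℝ) ^ N) ^ (1 - ε) :=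
    Real.rpow_le_rpow (Nat.cast_nonneg _) h6 (by linarith)
  refine h8.trans_lt ?_
  have h9 : ((3 * B : ℝ) ^ N) ^ (1 - ε) = Real.exp ((1 - ε) * N * (Real.log 3 + Real.log B)) := by
    rw [← Real.rpow_natCast, ← Real.rpow_mul (by positivity), Real.rpow_def_of_pos (by positivity),
      Real.log_mul (by norm_num) hB0.ne']
    congr 1
    ring
  have h10 : ((B : ℝ) / (2 * c * N')) ^ N' =
      Real.exp (N' * (Real.log B - Real.log (2 * c * N'))) := by
    rw [← Real.rpow_natCast, Real.rpow_def_of_pos (by positivity),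
      Real.log_div hB0.ne' (by positivity)]
    congr 1
    ring
  have h11 : Real.exp (N' * (Real.log B - Real.log (2 * c * N')) - Real.log 2) ≤
      ((Exc Bad D B).ncard : ℝ) := by
    rw [Real.exp_sub, Real.exp_log (by norm_num : (0 : ℝ) < 2), ← h10]
    linarith
  rw [h9]
  refine lt_of_lt_of_le (Real.exp_lt_exp.mpr ?_) h11
  have h12 := (div_lt_iff₀ hδ0).mp hB
  have h13 : (1 - ε) * N * Real.log 3 ≤ N * Real.log 3 := by
    have h14 : 0 ≤ Real.log 3 := Real.log_nonneg (by norm_num)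
    have h15 : 0 ≤ ε * N * Real.log 3 := by positivity
    nlinarith
  have h16 : Real.log B * δ = N' * Real.log B - (1 - ε) * N * Real.log B := by
    rw [hδ]
    ring
  nlinarith

/-- **No exceptions and a power saving.** -/
theorem saving_iff {r : ℕ} {Bad : MvPolynomial (Fin r) ℤ → Prop}
    (h : ∀ G P, Bad G → Bad (1 + G * P) ∨ Bad (G * (1 + G * P))) (h0 : ¬ Bad 0) :
    (∀ F, ¬ Bad F) ↔ Saving Bad := by
  constructor
  · intro hF
    refine ⟨1, one_pos, Frequently.of_forall fun D => Frequently.of_forall fun B => ?_⟩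
    have h1 : Exc Bad D B = ∅ := by
      rw [Set.eq_empty_iff_forall_notMem]
      exact fun F h => hF F h.2
    rw [h1, Set.ncard_empty, Nat.cast_zero]
    exact Real.rpow_nonneg (Nat.cast_nonneg _) _
  · rintro ⟨ε, hε, hs⟩ F hF
    have h1 := full h hF (fun h => h0 (h ▸ hF)) hε
    obtain ⟨D, h2, h3⟩ := (hs.and_eventually h1).exists
    obtain ⟨B, h4, h5⟩ := (h2.and_eventually h3).exists
    exact absurd h4 (not_le.mpr h5)

end Pool.Agent.Helper24.SE
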