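import Pool.Agent.Helper24.SE.Count
import Mathlib.FieldTheory.Finite.Basic

/-!
# Exceptional polynomials over finite fields
-/

set_option autoImplicit false

open MvPolynomial Filter

namespace Pool.Agent.Helper24.SE

variable {k : Type} [Field k]

/-- The polynomials `F ∈ k[x_1, …, x_r]` of degree at most `D` in each variable. -/
def BoxF (k : Type) [Field k] (r D : ℕ) : Set (MvPolynomial (Fin r) k) :=
  {F | ∀ i, F.degreeOf i ≤ D}

/-- The `F` in the box for which `Bad F`. -/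
def ExcF {r : ℕ} (Bad : MvPolynomial (Fin r) k → Prop) (D : ℕ) : Set (MvPolynomial (Fin r) k) :=
  {F | F ∈ BoxF k r D ∧ Bad F}

/-- the coefficients -/
noncomputable def cfF (k : Type) [Field k] (r D : ℕ) (F : MvPolynomial (Fin r) k)
    (s : Fin r → Fin (D + 1)) : k := coeff (ex s) F

lemma cfF_inj {r D : ℕ} : Set.InjOn (cfF k r D) (BoxF k r D) := by
  intro F hF G hG h
  have key : ∀ P ∈ BoxF k r D, ∀ s : Fin r →₀ ℕ, (¬ ∀ i, s i ≤ D) → coeff s P = 0 := by
    intro P hP s hs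
    by_contra h1
    apply hs
    intro i
    have h2 : s ∈ P.support := mem_support_iff.mpr h1
    exact (monomial_le_degreeOf i h2).trans (hP i)
  ext s
  by_cases hs : ∀ i, s i ≤ D
  · have h1 := congrFun h fun i => (⟨s i, Nat.lt_succ_of_le (hs i)⟩ : Fin (D + 1))
    have h2 : ex (D := D) (fun i => (⟨s i, Nat.lt_succ_of_le (hs i)⟩ : Fin (D + 1))) = s := by
      ext i
      rfl
    unfold cfF at h1
    rwa [h2] at h1
  · rw [key F hF s hs, key G hG s hs]

/-- the polynomial with given coefficients -/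
noncomputable def mkF {r D : ℕ} (g : (Fin r → Fin (D + 1)) → k) : MvPolynomial (Fin r) k :=
  ∑ s, monomial (ex s) (g s)

lemma cfF_mkF {r D : ℕ} (g : (Fin r → Fin (D + 1)) → k) : cfF k r D (mkF g) = g := by
  classical
  funext t
  unfold cfF mkF
  rw [coeff_sum]
  simp only [coeff_monomial]
  rw [Finset.sum_eq_single t]
  · rw [if_pos rfl]
  · intro s _ hs
    exact if_neg fun h => hs (ex_inj h)
  · intro h
    exact absurd (Finset.mem_univ t) h

lemma mkF_mem {r D : ℕ} (g : (Fin r → Fin (D + 1)) → k) : mkF g ∈ BoxF k r D := by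
  classical
  intro i
  rw [degreeOf_le_iff]
  intro m hm
  unfold mkF at hm
  obtain ⟨s, _, hs⟩ := Finset.mem_biUnion.mp (support_sum hm)
  have h1 := Finset.mem_singleton.mp (support_monomial_subset hs)
  rw [h1, ex_apply]
  exact Nat.le_of_lt_succ (s i).2

variable [Finite k]

lemma finite_boxF (r D : ℕ) : (BoxF k r D).Finite :=
  Set.Finite.of_injOn (t := Set.univ) (fun _ _ => Set.mem_univ _) cfF_inj Set.finite_univ

lemma card_boxF (r D : ℕ) : (BoxF k r D).ncard = Nat.card k ^ ((D + 1) ^ r) := by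
  have h1 : Set.BijOn (cfF k r D) (BoxF k r D) Set.univ :=
    ⟨fun _ _ => Set.mem_univ _, cfF_inj, fun g _ => ⟨mkF g, mkF_mem g, cfF_mkF g⟩⟩
  have h2 : (BoxF k r D).ncard = (Set.univ : Set ((Fin r → Fin (D + 1)) → k)).ncard := by
    rw [← h1.image_eq, Set.ncard_image_of_injOn h1.injOn]
  rw [h2, Set.ncard_univ, Nat.card_fun, Nat.card_fun]
  simp

/-- **Many exceptions.** -/
theorem manyF {r : ℕ} {Bad : MvPolynomial (Fin r) k → Prop}
    (h : ∀ G P, Bad G → Bad (1 + G * P) ∨ Bad (G * (1 + G * P))) {G : MvPolynomial (Fin r) k}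
    (hG : Bad G) (hG0 : G ≠ 0) :
    ∃ c : ℕ, ∀ D : ℕ, (BoxF k r D).ncard ≤ 2 * (ExcF Bad (D + c)).ncard := by
  classical
  set g := G.totalDegree with hg
  refine ⟨2 * g, fun D => ?_⟩
  have hfin : (ExcF Bad (D + 2 * g)).Finite := (finite_boxF r _).subset fun F hF => hF.1
  have hT : ((ExcF Bad (D + 2 * g)) ×ˢ (Set.univ : Set Bool)).ncard =
      2 * (ExcF Bad (D + 2 * g)).ncard := by
    rw [Set.ncard_prod, Set.ncard_univ, Nat.card_eq_fintype_card, Fintype.card_bool, mul_comm]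
  rw [← hT]
  have hGd : ∀ i, G.degreeOf i ≤ g := fun i => degreeOf_le_totalDegree G i
  have hdeg : ∀ P : MvPolynomial (Fin r) k, ∀ i, P.degreeOf i ≤ D →
      (1 + G * P).degreeOf i ≤ g + D := fun P i hP => by
    refine (degreeOf_add_le _ _ _).trans (max_le ?_ ?_)
    · have : (1 : MvPolynomial (Fin r) k).degreeOf i = 0 := degreeOf_one i
      rw [this]
      exact Nat.zero_le _
    · exact (degreeOf_mul_le _ _ _).trans (Nat.add_le_add (hGd i) hP)
  have hmem1 : ∀ P ∈ BoxF k r D, 1 + G * P ∈ BoxF k r (D + 2 * g) := fun P hP i =>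
    (hdeg P i (hP i)).trans (by omega)
  have hmem2 : ∀ P ∈ BoxF k r D, G * (1 + G * P) ∈ BoxF k r (D + 2 * g) := fun P hP i => by
    refine (degreeOf_mul_le _ _ _).trans ?_
    have h1 := hdeg P i (hP i)
    have h2 := hGd i
    omega
  refine Set.ncard_le_ncard_of_injOn (fun P => if Bad (1 + G * P) then
    (1 + G * P, false) else (G * (1 + G * P), true)) ?_ ?_ (hfin.prod Set.finite_univ)
  · intro P hP
    show (if Bad (1 + G * P) then
      (1 + G * P, false) else (G * (1 + G * P), true)) ∈ _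
    split_ifs with h1
    · exact ⟨⟨hmem1 P hP, h1⟩, Set.mem_univ _⟩
    · exact ⟨⟨hmem2 P hP, (h G P hG).resolve_left h1⟩, Set.mem_univ _⟩
  · intro P _ P' _ h
    dsimp only at h
    split_ifs at h with h1 h2 h2
    · have h3 := (Prod.ext_iff.mp h).1
      exact mul_left_cancel₀ hG0 (add_left_cancel h3)
    · exact absurd (Prod.ext_iff.mp h).2 (by simp)
    · exact absurd (Prod.ext_iff.mp h).2 (by simp)
    · have h3 := (Prod.ext_iff.mp h).1
      exact mul_left_cancel₀ hG0 (add_left_cancel (mul_left_cancel₀ hG0 h3))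

/-- The exceptional set is smaller than the box by a power: for some `ε > 0`, for infinitely many `D`,
`#Exc(D) ≤ #Box(D) ^ (1 - ε)`. -/
def SavingF {r : ℕ} (Bad : MvPolynomial (Fin r) k → Prop) : Prop :=
  ∃ ε : ℝ, 0 < ε ∧ ∃ᶠ D : ℕ in atTop,
    ((ExcF Bad D).ncard : ℝ) ≤ ((BoxF k r D).ncard : ℝ) ^ (1 - ε)

/-- **One exception gives a set of exceptions of full logarithmic density.** The number of variables is
not zero. -/
theorem fullF {r : ℕ} {Bad : MvPolynomial (Fin (r + 1)) k → Prop}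
    (h : ∀ G P, Bad G → Bad (1 + G * P) ∨ Bad (G * (1 + G * P)))
    {G : MvPolynomial (Fin (r + 1)) k}
    (hG : Bad G) (hG0 : G ≠ 0) {ε : ℝ} (hε : 0 < ε) :
    ∀ᶠ D : ℕ in atTop,
      ((BoxF k (r + 1) D).ncard : ℝ) ^ (1 - ε) < ((ExcF Bad D).ncard : ℝ) := by
  obtain ⟨c, hmany⟩ := manyF h hG hG0
  obtain ⟨D₀, hD₀⟩ := exists_deg (r + 1) c (half_pos hε)
  have hq : 1 < Nat.card k := Finite.one_lt_card
  have hq0 : (0 : ℝ) < Nat.card k := by exact_mod_cast (by omega : 0 < Nat.card k)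
  have hlq : 0 < Real.log (Nat.card k) := Real.log_pos (by exact_mod_cast hq)
  have hl2 : 0 < Real.log 2 := Real.log_pos (by norm_num)
  obtain ⟨M, hM⟩ := exists_nat_gt (2 * Real.log 2 / (ε * Real.log (Nat.card k)))
  filter_upwards [eventually_ge_atTop (D₀ + c + M)] with D hD
  set N := (D + 1) ^ (r + 1) with hN
  set N' := (D - c + 1) ^ (r + 1) with hN'
  have hNN : (1 - ε / 2) * (N : ℝ) ≤ N' := by
    have := hD₀ D (by omega)
    rw [hN, hN']
    push_cast at this ⊢
    exact this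
  have hMN : (M : ℝ) ≤ N := by
    have h1 : D + 1 ≤ (D + 1) ^ (r + 1) := Nat.le_self_pow (by omega) _
    exact_mod_cast (by omega : M ≤ N)
  have hmono : ExcF Bad (D - c + c) ⊆ ExcF Bad D := fun F hF =>
    ⟨fun i => (hF.1 i).trans (by omega), hF.2⟩
  have hfin : (ExcF Bad D).Finite := (finite_boxF _ _).subset fun F hF => hF.1
  have h1 : Nat.card k ^ N' ≤ 2 * (ExcF Bad D).ncard := by
    rw [hN', ← card_boxF (k := k) (r + 1) (D - c)]
    exact (hmany (D - c)).trans (Nat.mul_le_mul_left _ (Set.ncard_le_ncard hmono hfin))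
  have h2 : (Nat.card k : ℝ) ^ N' ≤ 2 * ((ExcF Bad D).ncard : ℝ) := by exact_mod_cast h1
  rw [card_boxF, ← hN]
  push_cast
  have h9 : ((Nat.card k : ℝ) ^ N) ^ (1 - ε) = Real.exp ((1 - ε) * N * Real.log (Nat.card k)) := by
    rw [← Real.rpow_natCast, ← Real.rpow_mul hq0.le, Real.rpow_def_of_pos hq0]
    congr 1
    ring
  have h10 : (Nat.card k : ℝ) ^ N' = Real.exp (N' * Real.log (Nat.card k)) := by
    rw [← Real.rpow_natCast, Real.rpow_def_of_pos hq0]
    congr 1
    ring
  have h11 : Real.exp (N' * Real.log (Nat.card k) - Real.log 2) ≤ ((ExcF Bad D).ncard : ℝ) := by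
    rw [Real.exp_sub, Real.exp_log (by norm_num : (0 : ℝ) < 2), ← h10]
    linarith
  rw [h9]
  refine lt_of_lt_of_le (Real.exp_lt_exp.mpr ?_) h11
  have h12 : 2 * Real.log 2 < M * (ε * Real.log (Nat.card k)) := (div_lt_iff₀ (by positivity)).mp hM
  have h13 : (M : ℝ) * (ε * Real.log (Nat.card k)) ≤ N * (ε * Real.log (Nat.card k)) :=
    mul_le_mul_of_nonneg_right hMN (by positivity)
  have h14 : (1 - ε / 2) * (N : ℝ) * Real.log (Nat.card k) ≤ N' * Real.log (Nat.card k) :=
    mul_le_mul_of_nonneg_right hNN hlq.le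
  nlinarith

/-- **No exceptions and a power saving.** -/
theorem savingF_iff {r : ℕ} {Bad : MvPolynomial (Fin (r + 1)) k → Prop}
    (h : ∀ G P, Bad G → Bad (1 + G * P) ∨ Bad (G * (1 + G * P))) (h0 : ¬ Bad 0) :
    (∀ F, ¬ Bad F) ↔ SavingF Bad := by
  constructor
  · intro hF
    refine ⟨1, one_pos, Frequently.of_forall fun D => ?_⟩
    have h1 : ExcF Bad D = ∅ := by
      rw [Set.eq_empty_iff_forall_notMem]
      exact fun F h => hF F h.2
    rw [h1, Set.ncard_empty, Nat.cast_zero]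
    exact Real.rpow_nonneg (Nat.cast_nonneg _) _
  · rintro ⟨ε, hε, hs⟩ F hF
    have h1 := fullF h hF (fun h => h0 (h ▸ hF)) hε
    obtain ⟨D, h2, h3⟩ := (hs.and_eventually h1).exists
    exact absurd h2 (not_le.mpr h3)

end Pool.Agent.Helper24.SE
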