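import Mathlib.Analysis.SpecificLimits.Basic
import Mathlib.Data.Set.Card

/-!
# Sets of places of density one
-/

set_option autoImplicit false

open Filter Topology

namespace Pool.Agent.Helper24.SE

/-- The set `S` of places has density one: the proportion of the places `v` with `N v ≤ x` which are in `S` tends
to one. -/
def DensityOne {P : Type} (N : P → ℕ) (S : Set P) : Prop :=
  Tendsto (fun x : ℕ => ((S ∩ {v | N v ≤ x}).ncard : ℝ) / (({v | N v ≤ x} : Set P).ncard : ℝ))
    atTop (𝓝 1)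

variable {P : Type} {N : P → ℕ} (hN : ∀ x : ℕ, ({v | N v ≤ x} : Set P).Finite)

include hN

lemma ratio_le (S : Set P) (x : ℕ) :
    ((S ∩ {v | N v ≤ x}).ncard : ℝ) / (({v | N v ≤ x} : Set P).ncard : ℝ) ≤ 1 :=
  div_le_one_of_le₀ (by exact_mod_cast Set.ncard_le_ncard Set.inter_subset_right (hN x))
    (Nat.cast_nonneg _)

lemma DensityOne.mono {S T : Set P} (h : S ⊆ T) (hS : DensityOne N S) : DensityOne N T := by
  refine tendsto_of_tendsto_of_tendsto_of_le_of_le hS tendsto_const_nhds (fun x => ?_)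
    fun x => ratio_le hN T x
  exact div_le_div_of_nonneg_right (Nat.cast_le.mpr (Set.ncard_le_ncard
    (Set.inter_subset_inter_left _ h) ((hN x).subset Set.inter_subset_right))) (Nat.cast_nonneg _)

lemma DensityOne.inter {S T : Set P} (hS : DensityOne N S) (hT : DensityOne N T) :
    DensityOne N (S ∩ T) := by
  have h1 := (hS.add hT).sub_const 1
  have h2 : (1 : ℝ) + 1 - 1 = 1 := by norm_num
  rw [h2] at h1
  refine tendsto_of_tendsto_of_tendsto_of_le_of_le h1 tendsto_const_nhds (fun x => ?_)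
    fun x => ratio_le hN _ x
  beta_reduce
  have hf := hN x
  have h3 : ((S ∩ {v | N v ≤ x}).ncard : ℝ) + ((T ∩ {v | N v ≤ x}).ncard : ℝ) ≤
      ((S ∩ T ∩ {v | N v ≤ x}).ncard : ℝ) + (({v | N v ≤ x} : Set P).ncard : ℝ) := by
    have h4 := Set.ncard_inter_add_ncard_union (S ∩ {v | N v ≤ x}) (T ∩ {v | N v ≤ x})
      (hf.subset Set.inter_subset_right) (hf.subset Set.inter_subset_right)
    have h5 : (S ∩ {v | N v ≤ x}) ∩ (T ∩ {v | N v ≤ x}) = S ∩ T ∩ {v | N v ≤ x} := by
      ext v
      simp only [Set.mem_inter_iff, Set.mem_setOf_eq]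
      tauto
    have h6 : ((S ∩ {v | N v ≤ x}) ∪ (T ∩ {v | N v ≤ x})).ncard ≤
        ({v | N v ≤ x} : Set P).ncard := by
      refine Set.ncard_le_ncard ?_ hf
      exact Set.union_subset Set.inter_subset_right Set.inter_subset_right
    rw [h5] at h4
    have h7 : (S ∩ {v | N v ≤ x}).ncard + (T ∩ {v | N v ≤ x}).ncard ≤
        (S ∩ T ∩ {v | N v ≤ x}).ncard + ({v | N v ≤ x} : Set P).ncard := by omega
    exact_mod_cast h7
  rcases (Nat.cast_nonneg (α := ℝ) ({v | N v ≤ x} : Set P).ncard).eq_or_lt with h0 | h0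
  · rw [← h0]
    simp
  · rw [← add_div, sub_le_iff_le_add, ← div_self h0.ne', ← add_div]
    exact (div_le_div_iff_of_pos_right h0).mpr h3

end Pool.Agent.Helper24.SE
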