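import Pool.Agent.Helper24.KE.Q
import Pool.Agent.Helper24.SE.Count

/-!
# Disjoint hypersurfaces
-/

set_option autoImplicit false
set_option linter.unusedSectionVars false

open CategoryTheory AlgebraicGeometry MvPolynomial Pool.Agent.Y116.UV Pool.Agent.Helper62.EC

namespace Pool.Agent.Helper24.SE

open Pool.Agent.Helper24.KE (loc_equiv map_span_one mul_le mul_mem)

variable {R : Type} [CommRing R] {sep : Prop} {P : Sch R → Prop} (hP : Cls sep P)

include hP

/-- If `F = 0` and `H = 0` are disjoint, and the property holds for `H = 0` and `F H = 0`, then for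
`F = 0`. -/
theorem disj_third {A : Type} [CommRing A] [Algebra R A] [Algebra.FiniteType R A]
    (h0 : P (aff R A)) (F H : A) (hFH : Ideal.span {H} ⊔ Ideal.span {F} = ⊤)
    (h1 : P (aff R (A ⧸ Ideal.span {H}))) (h2 : P (aff R (A ⧸ Ideal.span {F * H}))) :
    P (aff R (A ⧸ Ideal.span {F})) := by
  have h3 : P (aff R ((A ⧸ Ideal.span {H}) ⧸ Ideal.span {Ideal.Quotient.mk (Ideal.span {H}) F})) := by
    refine quot_mk hP _ _ ?_
    refine p_empty hP h0 _ ?_
    rw [hFH]
    exact Ideal.Quotient.subsingleton_iff.mpr rfl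
  have h4 := ring_open hP _ h3 h1
  obtain ⟨e⟩ := loc_equiv (R := R) (Ideal.span {H}) (Ideal.span {F * H}) (mul_le F H) F (mul_mem F H)
  have : Algebra.FiniteType R (Localization.Away (Ideal.Quotient.mk (Ideal.span {H}) F)) :=
    Algebra.FiniteType.trans (S := A ⧸ Ideal.span {H}) inferInstance inferInstance
  have h5 := iso_alg hP e.symm h4
  have h6 := ring_closed hP _ h2 h5
  have h7 : Ideal.map (Ideal.Quotient.mkₐ R (Ideal.span {F * H})) (Ideal.span {F}) =
      Ideal.span {Ideal.Quotient.mk (Ideal.span {F * H}) F} := by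
    rw [Ideal.map_span, Set.image_singleton]
    rfl
  rw [← h7] at h6
  have h8 := iso_alg hP (DoubleQuot.quotQuotEquivQuotSupₐ R (Ideal.span {F * H}) (Ideal.span {F})) h6
  rwa [sup_eq_right.mpr] at h8
  rw [Ideal.span_singleton_le_span_singleton]
  exact Dvd.intro H rfl

/-- The hypersurface and its complement. -/
lemma compl_iff {A : Type} [CommRing A] [Algebra R A] [Algebra.FiniteType R A] (h0 : P (aff R A))
    (F : A) : P (aff R (Localization.Away F)) ↔ P (aff R (A ⧸ Ideal.span {F})) :=
  ⟨fun h => ring_closed hP F h0 h, fun h => ring_open hP F h h0⟩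

/-- Disjoint hypersurfaces, complements. -/
theorem disj_compl {A : Type} [CommRing A] [Algebra R A] [Algebra.FiniteType R A]
    (h0 : P (aff R A)) (F H : A) (hFH : Ideal.span {H} ⊔ Ideal.span {F} = ⊤)
    (h : ¬ P (aff R (Localization.Away F))) :
    ¬ P (aff R (Localization.Away H)) ∨ ¬ P (aff R (Localization.Away (F * H))) := by
  rw [compl_iff hP h0] at h ⊢
  rw [compl_iff hP h0]
  by_contra hcon
  rw [not_or, not_not, not_not] at hcon
  exact h (disj_third hP h0 F H hFH hcon.1 hcon.2)

omit hP in
lemma span_one {A : Type} [CommRing A] (G P : A) :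
    Ideal.span {1 + G * P} ⊔ Ideal.span {G} = ⊤ := by
  rw [Ideal.eq_top_iff_one]
  have h2 : (1 : A) = (1 + G * P) + G * (-P) := by ring
  have h3 : (1 + G * P) + G * (-P) ∈ Ideal.span {1 + G * P} ⊔ Ideal.span {G} :=
    Submodule.add_mem_sup (Ideal.mem_span_singleton_self _)
      (Ideal.mul_mem_right _ _ (Ideal.mem_span_singleton_self _))
  rwa [← h2] at h3

/-- The case of `H = 1 + G Q`. -/
theorem disj_one {A : Type} [CommRing A] [Algebra R A] [Algebra.FiniteType R A]
    (h0 : P (aff R A)) (G Q : A) (h : ¬ P (aff R (Localization.Away G))) :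
    ¬ P (aff R (Localization.Away (1 + G * Q))) ∨
      ¬ P (aff R (Localization.Away (G * (1 + G * Q)))) :=
  disj_compl hP h0 G _ (span_one G Q) h

/-- The complement of zero is empty. -/
lemma compl_zero {A : Type} [CommRing A] [Algebra R A] [Algebra.FiniteType R A]
    (h0 : P (aff R A)) : P (aff R (Localization.Away (0 : A))) := by
  rw [compl_iff hP h0]
  have h : Ideal.span {(0 : A)} = ⊥ := Ideal.span_singleton_eq_bot.mpr rfl
  rw [h]
  exact iso_alg hP (AlgEquiv.quotientBot R _).symm h0

end Pool.Agent.Helper24.SE
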