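import Pool.Agent.Helper24.SE.ThickF
import Pool.Agent.Helper95.WC.Main

/-!
# Extensions of properties of objects to complexes, through an additive functor
-/

set_option autoImplicit false
set_option linter.unusedSectionVars false

open CategoryTheory Limits AlgebraicGeometry Pool.Agent.Y116.UV
  Pool.Agent.Q282.UM Pool.Agent.Q282.UK Pool.Agent.Helper62.EC Pool.Agent.Helper95.WC

namespace Pool.Agent.Helper24.SE

universe v u v' u'

variable {C : Type u} [Category.{v} C] [Preadditive C] [HasBinaryBiproducts C] [HasZeroObject C]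
  [HasFiniteBiproducts C] {C' : Type u'} [Category.{v'} C'] [Preadditive C']
  [HasBinaryBiproducts C'] [HasZeroObject C'] [HasFiniteBiproducts C']
  (Φ : C ⥤ C') [Φ.Additive] {Q : C' → Prop} (hQ : IsThick Q)

include hQ in
/-- The property of complexes `K` in `C` that `Φ(K)` is a direct summand of a complex of objects with the
property `Q`. -/
theorem ext_map : IsExtension (fun M : C => Q (Φ.obj M)) (fun K : HK C => TermsIn Q (onHK Φ K)) where
  iso e h := (ext_terms hQ).iso (iso_map Φ e) h
  shift K n h := (ext_terms hQ).iso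
    ⟨(((Φ.mapHomotopyCategory (ComplexShape.up ℤ)).commShiftIso n).app K).symm⟩
    ((ext_terms hQ).shift _ n h)
  summand hs h := (ext_terms hQ).summand (hs.map (Φ.mapHomotopyCategory (ComplexShape.up ℤ))) h
  triangle T hT h1 h3 := (ext_terms hQ).triangle _
    ((Φ.mapHomotopyCategory (ComplexShape.up ℤ)).map_distinguished T hT) h1 h3
  of_terms K hK := (ext_terms hQ).of_terms ((Φ.mapHomologicalComplex (ComplexShape.up ℤ)).obj K) hK
  to_object M h := (ext_terms hQ).to_object _ ((ext_terms hQ).iso
    ⟨(HomotopyCategory.quotient C' (ComplexShape.up ℤ)).mapIso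
      ((HomologicalComplex.singleMapHomologicalComplex Φ (ComplexShape.up ℤ) 0).app M)⟩ h)
  object_summand hs h := hQ.summand (hs.map Φ) h
  object_sum := of_biproduct (fun hs h => hQ.summand (hs.map Φ) h)
    (fun M hM => hQ.zero _ (Φ.map_isZero hM)) fun M N hM hN => by
      have : PreservesBinaryBiproduct M N Φ :=
        (preservesBinaryBiproducts_of_preservesBiproducts Φ).preserves
      exact hQ.summand (IsSummand.of_iso (Φ.mapBiprod M N)) (hQ.sum _ _ hM hN)

/-- Twists of complexes which do not change the image. -/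
lemma onHK_absorb {T : C ⥤ C} [T.Additive] (e : T ⋙ Φ ≅ Φ) (K : HK C) :
    Nonempty (onHK Φ (onHK T K) ≅ onHK Φ K) := by
  obtain ⟨K⟩ := K
  let L : CochainComplex C ℤ := K
  refine ⟨(HomotopyCategory.quotient C' (ComplexShape.up ℤ)).mapIso (X :=
    (Φ.mapHomologicalComplex (ComplexShape.up ℤ)).obj
      ((T.mapHomologicalComplex (ComplexShape.up ℤ)).obj L)) (Y :=
    (Φ.mapHomologicalComplex (ComplexShape.up ℤ)).obj L)
    (HomologicalComplex.Hom.isoOfComponents (fun i => e.app (L.X i)) ?_)⟩
  intro i j _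
  exact (e.hom.naturality (L.d i j)).symm

include hQ in
lemma twists_iff {k : Type} [Field k] {D : Weights k C}
    (hT : ∀ n : ℤ, Nonempty (D.tw n ⋙ Φ ≅ Φ)) (X : Sch k) :
    AllTwists D (fun K : HK C => TermsIn Q (onHK Φ K)) X ↔ TermsIn Q (onHK Φ (D.W X)) := by
  constructor
  · intro h
    exact (ext_terms hQ).iso (onHK_absorb Φ (hT 0).some _) (h 0)
  · intro h n
    obtain ⟨e⟩ := onHK_absorb Φ (hT n).some (D.W X)
    exact (ext_terms hQ).iso ⟨e.symm⟩ h

end Pool.Agent.Helper24.SE
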