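import Pool.Agent.Helper24.SE.Disj
import Pool.Agent.Helper24.SE.CountF
import Pool.Agent.Helper24.KG.Main

/-!
# Power savings for additive functors of motives over finite fields
-/

set_option autoImplicit false
set_option linter.unusedSectionVars false

open CategoryTheory Limits AlgebraicGeometry MvPolynomial Filter Pool.Agent.Y116.UV
  Pool.Agent.Q282.UM Pool.Agent.Q282.UK Pool.Agent.Helper62.EC Pool.Agent.Helper24.KD
  Pool.Agent.Helper24.KF Pool.Agent.Helper24.KG

namespace Pool.Agent.Helper24.SE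

open Pool.Agent.Helper24.KE (V U)

section general

variable {k : Type} [Field k] [Finite k] {P : Sch k → Prop} (hP : Cls True P)
  (hs : ∀ r : ℕ, P (aff k (MvPolynomial (Fin r) k)))

include hP hs

/-- From schemes to principal open sets. -/
theorem open_of_dimF {d : ℕ} (h : ∀ X : Sch k, FT True X → topologicalKrullDim X.left ≤ d → P X)
    (F : MvPolynomial (Fin (d + 1)) k) : P (U F) := by
  refine ring_open hP F ?_ (hs _)
  by_cases hg : Ideal.span {F} = ⊥
  · rw [hg]
    exact iso_alg hP (AlgEquiv.quotientBot k _).symm (hs _)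
  · refine h _ (ft_aff True) ?_
    rw [Pool.Agent.Z125.UN.topDim_aff]
    exact Pool.Agent.Z125.UN.dim_quot _ hg

/-- **One dimension.** -/
theorem savingF_dim (d : ℕ) :
    (∀ X : Sch k, FT True X → topologicalKrullDim X.left ≤ d → P X) ↔
      SavingF (k := k) (r := d + 1) (fun F => ¬ P (U F)) := by
  rw [← savingF_iff (fun G Q hG => disj_one hP (hs _) G Q hG)
    (fun h => h (compl_zero hP (hs _)))]
  constructor
  · intro h F hF
    exact hF (open_of_dimF hP hs h _)
  · intro h X hX hd
    exact Pool.Agent.Helper19.UA.of_hyp hP (hs _) (fun F =>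
      (compl_iff hP (hs _) F).mp (not_not.mp (h F))) X hX hd

/-- **All dimensions.** -/
theorem savingF_all : (∀ X : Sch k, FT True X → P X) ↔
    ∃ᶠ r : ℕ in atTop, SavingF (k := k) (r := r) (fun F => ¬ P (U F)) := by
  constructor
  · intro h
    refine Frequently.of_forall fun r => ⟨1, one_pos, Frequently.of_forall fun D => ?_⟩
    have h1 : ExcF (k := k) (r := r) (fun F => ¬ P (U F)) D = ∅ := by
      rw [Set.eq_empty_iff_forall_notMem]
      exact fun F hF => hF.2 (h _ (ft_aff True))
    rw [h1, Set.ncard_empty, Nat.cast_zero]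
    exact Real.rpow_nonneg (Nat.cast_nonneg _) _
  · intro h X hX
    refine of_affine' (P := P) hP.iso hP.total (fun B _ _ _ => ?_) X hX
    obtain ⟨N, hN⟩ := Pool.Agent.Helper24.KZ.exists_dim_aff (k := k) B
    obtain ⟨r, hr, hrN⟩ := (h.and_eventually (eventually_ge_atTop (N + 1))).exists
    obtain ⟨d, rfl⟩ : ∃ d, r = d + 1 := ⟨r - 1, by omega⟩
    refine (savingF_dim hP hs d).mpr hr _ (ft_aff True) (hN.trans ?_)
    exact_mod_cast (by omega : N ≤ d)

/-- **One exception.** -/
theorem full_fin {r : ℕ} {G : MvPolynomial (Fin (r + 1)) k} (hG : ¬ P (U G)) {ε : ℝ}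
    (hε : 0 < ε) : ∀ᶠ D : ℕ in atTop, ((BoxF k (r + 1) D).ncard : ℝ) ^ (1 - ε) <
      ((ExcF (k := k) (r := r + 1) (fun F => ¬ P (U F)) D).ncard : ℝ) :=
  fullF (fun G Q hG => disj_one hP (hs _) G Q hG) hG
    (fun h => (h ▸ hG) (compl_zero hP (hs _))) hε

end general

universe w v u

section functor

variable {C : Type u} [Category.{v} C] [Preadditive C] [HasZeroObject C] [HasBinaryBiproducts C]
  [HasFiniteBiproducts C] {𝕜 : Type w} [Field 𝕜] {F : C ⥤ ModuleCat.{w} 𝕜} [F.Additive]
  {k : Type} [Field k] {D : Weights k C}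

variable (F D) in
/-- `G` is an exception: it is false that the Euler characteristic of `F(W(D(G))(j))` is defined and
zero. -/
def ExcpF (j : ℤ) {r : ℕ} (G : MvPolynomial (Fin r) k) : Prop :=
  ¬ (HasChi F D j (princ G) ∧ euler F D j (princ G) = 0)

lemma excpF_eq (j : ℤ) (r : ℕ) : (ExcpF F D j : MvPolynomial (Fin r) k → Prop) =
    fun G => ¬ QT (TOne F) D j (U G) 0 := by
  funext G
  exact propext (not_congr (q_iff j _ 0).symm)

variable [Finite k] (h : Known F D)

include h

theorem functorF_dim (j : ℤ) (d : ℕ) :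
    ZeroDim F D j d ↔ SavingF (k := k) (r := d + 1) (ExcpF F D j) := by
  rw [excpF_eq, ← savingF_dim (P := fun X => QT (TOne F) D j X 0) (dfcF (tOne F) h.weight j).cls
    (exact_space h j) d]
  exact ⟨fun h1 X hX hd => one_zeroF h.weight (fun Y hY hYd => h1 Y hY hYd) X hX hd,
    fun h1 Y hY hd => zero_iff h hY (h1 Y (ft_projective hY) hd)⟩

theorem functorF_all (j : ℤ) :
    ZeroAll F D j ↔ ∃ᶠ r : ℕ in atTop, SavingF (k := k) (r := r) (ExcpF F D j) := by
  have h3 : (∃ᶠ r : ℕ in atTop, SavingF (k := k) (r := r) (ExcpF F D j)) ↔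
      ∃ᶠ r : ℕ in atTop, SavingF (k := k) (r := r) (fun G => ¬ QT (TOne F) D j (U G) 0) := by
    constructor
    · exact fun h => h.mono fun r hr => by rwa [excpF_eq] at hr
    · exact fun h => h.mono fun r hr => by rwa [excpF_eq]
  rw [h3, ← savingF_all (P := fun X => QT (TOne F) D j X 0) (dfcF (tOne F) h.weight j).cls
    (exact_space h j)]
  constructor
  · intro h1 X hX
    refine of_affine' (P := fun X => QT (TOne F) D j X 0) (dfcF (tOne F) h.weight j).cls.iso
      (dfcF (tOne F) h.weight j).cls.total (fun B _ _ _ => ?_) X hX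
    obtain ⟨N, hN⟩ := Pool.Agent.Helper24.KZ.exists_dim_aff (k := k) B
    exact one_zeroF h.weight (fun Y hY _ => h1 Y hY) _ (ft_aff True) hN
  · exact fun h1 Y hY => zero_iff h hY (h1 Y (ft_projective hY))

theorem functorF_full (j : ℤ) {r : ℕ} {G : MvPolynomial (Fin (r + 1)) k} (hG : ExcpF F D j G)
    {ε : ℝ} (hε : 0 < ε) : ∀ᶠ D' : ℕ in atTop, ((BoxF k (r + 1) D').ncard : ℝ) ^ (1 - ε) <
      ((ExcF (k := k) (r := r + 1) (ExcpF F D j) D').ncard : ℝ) := by
  rw [excpF_eq] at hG ⊢
  exact full_fin (P := fun X => QT (TOne F) D j X 0) (dfcF (tOne F) h.weight j).cls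
    (exact_space h j) hG hε

end functor

end Pool.Agent.Helper24.SE
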