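import Pool.Agent.Helper24.SE.Fin
import Pool.Agent.Helper24.KG.Pair

/-!
# Power savings for additive functors of motives over finite fields, all twists
-/

set_option autoImplicit false
set_option linter.unusedSectionVars false

open CategoryTheory Limits AlgebraicGeometry MvPolynomial Filter Pool.Agent.Y116.UV
  Pool.Agent.Q282.UM Pool.Agent.Q282.UK Pool.Agent.Helper62.EC Pool.Agent.Helper24.KD
  Pool.Agent.Helper24.KF Pool.Agent.Helper24.KG

namespace Pool.Agent.Helper24.SE

open Pool.Agent.Helper24.KE (V U)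

universe w v u

variable {C : Type u} [Category.{v} C] [Preadditive C] [HasZeroObject C] [HasBinaryBiproducts C]
  [HasFiniteBiproducts C] {𝕜 : Type w} [Field 𝕜] {F : C ⥤ ModuleCat.{w} 𝕜} [F.Additive]
  {k : Type} [Field k] {D : Weights k C} [Finite k] (h : KnownP F D)

include h

theorem functorP_dim (j : ℤ) (d : ℕ) :
    ZeroDim F D j d ↔ SavingF (k := k) (r := d + 1) (ExcpF F D j) := by
  rw [excpF_eq, ← savingF_dim (P := fun X => QT (TOne F) D j X 0) (dfcF (tOne F) h.weight j).cls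
    (exact_spaceP h j) d]
  exact ⟨fun h1 X hX hd => one_zeroF h.weight (fun Y hY hYd => h1 Y hY hYd) X hX hd,
    fun h1 Y hY hd => zero_iffP h hY (h1 Y (ft_projective hY) hd)⟩

theorem functorP_all (j : ℤ) :
    ZeroAll F D j ↔ ∃ᶠ r : ℕ in atTop, SavingF (k := k) (r := r) (ExcpF F D j) := by
  have h3 : (∃ᶠ r : ℕ in atTop, SavingF (k := k) (r := r) (ExcpF F D j)) ↔
      ∃ᶠ r : ℕ in atTop, SavingF (k := k) (r := r) (fun G => ¬ QT (TOne F) D j (U G) 0) := by
    constructor
    · exact fun h => h.mono fun r hr => by rwa [excpF_eq] at hr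
    · exact fun h => h.mono fun r hr => by rwa [excpF_eq]
  rw [h3, ← savingF_all (P := fun X => QT (TOne F) D j X 0) (dfcF (tOne F) h.weight j).cls
    (exact_spaceP h j)]
  constructor
  · intro h1 X hX
    refine of_affine' (P := fun X => QT (TOne F) D j X 0) (dfcF (tOne F) h.weight j).cls.iso
      (dfcF (tOne F) h.weight j).cls.total (fun B _ _ _ => ?_) X hX
    obtain ⟨N, hN⟩ := Pool.Agent.Helper24.KZ.exists_dim_aff (k := k) B
    exact one_zeroF h.weight (fun Y hY _ => h1 Y hY) _ (ft_aff True) hN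
  · exact fun h1 Y hY => zero_iffP h hY (h1 Y (ft_projective hY))

theorem functorP_full (j : ℤ) {r : ℕ} {G : MvPolynomial (Fin (r + 1)) k} (hG : ExcpF F D j G)
    {ε : ℝ} (hε : 0 < ε) : ∀ᶠ D' : ℕ in atTop, ((BoxF k (r + 1) D').ncard : ℝ) ^ (1 - ε) <
      ((ExcF (k := k) (r := r + 1) (ExcpF F D j) D').ncard : ℝ) := by
  rw [excpF_eq] at hG ⊢
  exact full_fin (P := fun X => QT (TOne F) D j X 0) (dfcF (tOne F) h.weight j).cls
    (exact_spaceP h j) hG hε

omit [Finite k] in
theorem functorP_disj (j : ℤ) {r : ℕ} {G H : MvPolynomial (Fin r) k}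
    (hFH : Ideal.span {H} ⊔ Ideal.span {G} = ⊤) (hG : ExcpF F D j G) :
    ExcpF F D j H ∨ ExcpF F D j (G * H) := by
  rw [excpF_eq] at hG ⊢
  exact disj_compl (P := fun X => QT (TOne F) D j X 0)
    (dfcF (tOne F) h.weight j).cls (exact_spaceP h j r) G H hFH hG

end Pool.Agent.Helper24.SE
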