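import Pool.Agent.Helper24.SE.Rat
import Pool.Agent.Helper24.KF.Ker

/-!
# Power savings for additive functors of motives over the rational numbers
-/

set_option autoImplicit false
set_option linter.unusedSectionVars false

open CategoryTheory Limits AlgebraicGeometry MvPolynomial Filter Pool.Agent.Y116.UV
  Pool.Agent.Q282.UM Pool.Agent.Q282.UK Pool.Agent.Helper62.EC Pool.Agent.Helper24.KD
  Pool.Agent.Helper24.KF

namespace Pool.Agent.Helper24.SE

open Pool.Agent.Helper24.KE (V U toQ)

universe w v u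

variable {C : Type u} [Category.{v} C] [Preadditive C] [HasBinaryBiproducts C] [HasZeroObject C]
  [HasFiniteBiproducts C] {𝕜 : Type w} [Field 𝕜] {F : C ⥤ ModuleCat.{w} 𝕜} [F.Additive]

section general

variable {k : Type} [Field k] {D : Weights k C} (hD : IsWeightComplex D)
  (hp : ∀ (n : ℤ) (Y : Sch k), IsSmoothProjective Y → topologicalKrullDim Y.left ≤ (0 : ℕ) →
    Subsingleton (F.obj ((D.tw n).obj (D.h Y))))

variable (F D) in
/-- The Euler characteristic of `F(W(X)(n))` is defined and zero. -/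
def Eul (n : ℤ) (X : Sch k) : Prop := QT (TOne F) D n X 0

include hD

lemma cls_eul (n : ℤ) : Cls True (Eul F D n) := (dfcT (tOne F) hD n).cls

lemma eul_proj {n : ℤ} {X : Sch k} (hX : IsSmoothProjective X) (h : Eul F D n X) :
    Subsingleton (F.obj ((D.tw n).obj (D.h X))) := by
  obtain ⟨h1, h2⟩ := one_inZero.mp (projT (tOne F) hD hX h)
  exact Module.finrank_zero_iff.mp (by exact_mod_cast h2)

include hp

lemma eul_space (n : ℤ) (r : ℕ) : Eul F D n (aff k (MvPolynomial (Fin r) k)) := by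
  refine spaceT (tOne F) hD (fun n => ?_) n r
  refine one_zero hD (hp n) _ (ft_aff True) ?_
  rw [Pool.Agent.Z125.UN.topDim_aff, ringKrullDim_eq_zero_of_field]
  exact le_rfl

end general

section rational

variable {D : Weights ℚ C} (hD : IsWeightComplex D)
  (hp : ∀ (n : ℤ) (Y : Sch ℚ), IsSmoothProjective Y → topologicalKrullDim Y.left ≤ (0 : ℕ) →
    Subsingleton (F.obj ((D.tw n).obj (D.h Y))))

variable (F D) in
/-- The exceptions. -/
def Excp (n : ℤ) {r : ℕ} (P : MvPolynomial (Fin r) ℤ) : Prop := ¬ Eul F D n (U (toQ P))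

include hD hp

theorem functor_dim (n : ℤ) (d : ℕ) : (∀ Y : Sch ℚ, IsSmoothProjective Y →
    topologicalKrullDim Y.left ≤ d → Subsingleton (F.obj ((D.tw n).obj (D.h Y)))) ↔
      Saving (r := d + 1) (Excp F D n) := by
  refine Iff.trans ?_ (saving_dim (cls_eul (F := F) hD n) (eul_space hD hp n) d)
  exact ⟨fun h X hX hd => one_zero hD h X hX hd,
    fun h Y hY hd => eul_proj hD hY (h Y (ft_projective hY) hd)⟩

theorem functor_all (n : ℤ) : (∀ Y : Sch ℚ, IsSmoothProjective Y →
    Subsingleton (F.obj ((D.tw n).obj (D.h Y)))) ↔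
      ∃ᶠ r : ℕ in atTop, Saving (r := r) (Excp F D n) := by
  refine Iff.trans ?_ (saving_all (cls_eul (F := F) hD n) (eul_space hD hp n))
  constructor
  · intro h X hX
    refine of_affine' (P := Eul F D n) (cls_eul (F := F) hD n).iso (cls_eul (F := F) hD n).total
      (fun B _ _ _ => ?_) X hX
    obtain ⟨N, hN⟩ := Pool.Agent.Helper24.KZ.exists_dim_aff (k := ℚ) B
    exact one_zero hD (fun Y hY _ => h Y hY) _ (ft_aff True) hN
  · exact fun h Y hY => eul_proj hD hY (h Y (ft_projective hY))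

theorem functor_full (n : ℤ) {r : ℕ} {G : MvPolynomial (Fin r) ℤ} (hG : Excp F D n G) {ε : ℝ}
    (hε : 0 < ε) : ∀ᶠ D' : ℕ in atTop, ∀ᶠ B : ℕ in atTop, ((Box r D' B).ncard : ℝ) ^ (1 - ε) <
      ((Exc (r := r) (Excp F D n) D' B).ncard : ℝ) :=
  full_rat (cls_eul (F := F) hD n) (eul_space hD hp n) hG hε

end rational

end Pool.Agent.Helper24.SE
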