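import Pool.Graph.R_pool_sql_team_seeded_2aa45f1a.Results.MP_0dad22_ag.OneCubicForEachMotive
import Pool.Agent.Helper24.SE.Count
import Pool.Agent.Helper24.KD.Base
import Pool.Agent.Helper24.KE.Sz

/-!
# Hypersurfaces in which the given motives occur
-/

set_option autoImplicit false
set_option linter.unusedSectionVars false

open CategoryTheory CategoryTheory.Limits AlgebraicGeometry Pretriangulated MvPolynomial Filter
  Pool.Agent.Y116.UV Pool.Agent.Q193.LT Pool.Agent.Q115.DU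
  Pool.Agent.Results.MP_0dad22_ag.OneCubicForEachMotive

namespace Pool.Agent.Helper24.SE

open Pool.Agent.Helper24.KE (V toQ exists_rep)

universe v u v' u'

section gen

variable {k : Type} [Field k] {C : Type u} [Category.{v} C] [Preadditive C] [HasZeroObject C]
  [HasShift C ℤ] [∀ n : ℤ, (shiftFunctor C n).Additive] [Pretriangulated C]
  {E : Type u'} [Category.{v'} E]

/-- `R` is, up to a Tate twist, a direct factor of one of the motives `Gr^W_{3-j} H_j(X)`. -/
def Occurs (D : OrdData k C E) (R : E) (X : Sch k) : Prop :=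
  ∃ (a b : ℕ) (j : ℤ), IsFactor ((it D.t.functor a).obj R)
    ((it D.t.functor b).obj ((D.Gr (3 - j) j).obj (D.Mc X)))

variable {D : OrdData k C E}

lemma occurs_mono {R : E} {X Y : Sch k} (h : IsFactor (D.Mc X) (D.Mc Y)) (hR : Occurs D R X) :
    Occurs D R Y := by
  obtain ⟨a, b, j, hf⟩ := hR
  exact ⟨a, b, j, hf.trans ((h.map (D.Gr (3 - j) j)).map (it D.t.functor b))⟩

/-- the twist of the direct factor -/
lemma occurs_bad (hD : IsOrd D) {R : E} {X : Sch k} (hR : Occurs D R X) (h : ¬ D.ord R) :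
    ∃ (j : ℤ) (N : E), IsFactor N ((D.Gr (3 - j) j).obj (D.Mc X)) ∧ ¬ D.ord N := by
  obtain ⟨a, b, j, hf⟩ := hR
  obtain ⟨N, ⟨e⟩⟩ : ∃ N : E, Nonempty ((it D.t.functor b).obj N ≅
      (it D.t.functor a).obj R) := by
    have : ∀ (b : ℕ) (M : E), ∃ N : E, Nonempty ((it D.t.functor b).obj N ≅ M) := by
      intro b
      induction b with
      | zero => exact fun M => ⟨M, ⟨Iso.refl _⟩⟩
      | succ b ih =>
        intro M
        obtain ⟨N, ⟨e⟩⟩ := ih (D.t.inverse.obj M)
        exact ⟨N, ⟨D.t.functor.mapIso e ≪≫ D.t.counitIso.app M⟩⟩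
    exact this b _
  have hff : ∀ (b : ℕ) {M N : E} (f : (it D.t.functor b).obj M ⟶ (it D.t.functor b).obj N),
      ∃ g : M ⟶ N, (it D.t.functor b).map g = f := by
    intro b
    induction b with
    | zero => exact fun f => ⟨f, rfl⟩
    | succ b ih =>
      intro M N f
      obtain ⟨g, hg⟩ := D.t.functor.map_surjective (X := (it D.t.functor b).obj M)
        (Y := (it D.t.functor b).obj N) f
      obtain ⟨g', rfl⟩ := ih g
      exact ⟨g', hg⟩
  have hinj : ∀ (b : ℕ) {M N : E} (f g : M ⟶ N),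
      (it D.t.functor b).map f = (it D.t.functor b).map g → f = g := by
    intro b
    induction b with
    | zero => exact fun f g h => h
    | succ b ih =>
      intro M N f g h
      exact ih f g (D.t.functor.map_injective h)
  have hN : IsFactor N ((D.Gr (3 - j) j).obj (D.Mc X)) := by
    obtain ⟨s, r, hsr⟩ := (IsFactor.trans (isFactor_of_iso ⟨e⟩) hf)
    obtain ⟨s', rfl⟩ := hff b s
    obtain ⟨r', rfl⟩ := hff b r
    refine ⟨s', r', hinj b _ _ ?_⟩
    rw [CategoryTheory.Functor.map_comp, hsr, CategoryTheory.Functor.map_id]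
  exact ⟨j, N, hN, fun h1 => h ((ord_it hD R a).1 (hD.iso ⟨e⟩ ((ord_it hD N b).2 h1)))⟩

/-- iterated twists -/
lemma tw_it (hD : IsTData D.toTData) (A : C) : ∀ n : ℕ,
    Nonempty (D.tw^[n] A ≅ (it D.Tw.functor n).obj A)
  | 0 => ⟨Iso.refl _⟩
  | n + 1 => by
    rw [Function.iterate_succ', Function.comp_apply]
    exact iso_comp (hD.tw _) (iso_map D.Tw.functor (tw_it hD A n))

lemma mc_alg (hD : IsCData D.toCData) {A B : Type} [CommRing A] [CommRing B] [Algebra k A]
    [Algebra k B] [Algebra.FiniteType k A] (e : A ≃ₐ[k] B) :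
    Nonempty (D.Mc (aff k A) ≅ D.Mc (aff k B)) :=
  hD.iso (ft_aff True) ⟨(affIso e).symm⟩

/-- products with affine spaces -/
lemma mc_poly (hD : IsTData D.toTData) (A : Type) [CommRing A] [Algebra k A]
    [Algebra.FiniteType k A] (n : ℕ) :
    Nonempty (D.Mc (aff k (MvPolynomial (Fin n) A)) ≅ (it D.Tw.functor n).obj (D.Mc (aff k A))) := by
  have h1 : Set.range (𝟙 (aff k A) : aff k A ⟶ aff k A).left =
      {x : PrimeSpectrum A | ∃ l, f1 A n l ∉ x.asIdeal} := by
    have h1 : Set.range (𝟙 (aff k A) : aff k A ⟶ aff k A).left = Set.univ := by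
      rw [Over.id_left]
      exact Set.range_id
    rw [h1]
    ext x
    simp only [Set.mem_univ, true_iff]
    exact ⟨0, fun hx => (PrimeSpectrum.isPrime (x : PrimeSpectrum A)).ne_top
      ((Ideal.eq_top_iff_one _).2 hx)⟩
  have h2 := hD.compact.bundle A (n + 1) (f1 A n) (aff k A) (𝟙 _)
    (iso_open (Iso.refl (aff k A))) h1
  rw [Nat.add_sub_cancel] at h2
  have : Algebra.FiniteType k (Jou (f1 A n)) :=
    Algebra.FiniteType.trans (S := A) inferInstance inferInstance
  exact iso_comp (iso_comp (iso_symm (mc_alg hD.compact ((jouOne A n).restrictScalars k))) h2)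
    (tw_it hD _ n)

/-- A motive which occurs in `X` occurs in the product with an affine space. -/
lemma occurs_poly (hD : IsOrd D) {R : E} {A : Type} [CommRing A] [Algebra k A]
    [Algebra.FiniteType k A] (n : ℕ) (hR : Occurs D R (aff k A)) :
    Occurs D R (aff k (MvPolynomial (Fin n) A)) := by
  obtain ⟨a, b, j, hf⟩ := hR
  refine ⟨a + n, b, j + 2 * n, ?_⟩
  have h1 := hf.map (it D.t.functor n)
  rw [it_add, it_add, add_comm b n, ← it_add D.t.functor n _ b] at h1
  refine h1.trans (IsFactor.map (it D.t.functor b) (isFactor_of_iso ?_))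
  have h2 := gr_twist hD.graded (D.Mc (aff k A)) n (3 - (j + 2 * n)) j
  have h3 : 3 - (j + 2 * (n : ℤ)) + 2 * n = 3 - j := by ring
  rw [h3] at h2
  obtain ⟨e⟩ := mc_poly hD.graded.motives A n
  exact iso_comp (iso_symm h2) ⟨(D.Gr _ _).mapIso e.symm⟩

lemma occurs_alg (hD : IsOrd D) {R : E} {A B : Type} [CommRing A] [CommRing B] [Algebra k A]
    [Algebra k B] [Algebra.FiniteType k A] (e : A ≃ₐ[k] B) (hR : Occurs D R (aff k A)) :
    Occurs D R (aff k B) :=
  occurs_mono (isFactor_of_iso (mc_alg hD.graded.motives.compact e)) hR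

end gen

section rat

variable {C : Type u} [Category.{v} C] [Preadditive C] [HasZeroObject C]
  [HasShift C ℤ] [∀ n : ℤ, (shiftFunctor C n).Additive] [Pretriangulated C]
  {E : Type u'} [Category.{v'} E] {D : OrdData ℚ C E}

/-- Chinese remainder theorem -/
lemma crt_equiv {A : Type} [CommRing A] [Algebra ℚ A] (g q : A) :
    Nonempty ((A ⧸ Ideal.span {g * (1 + g * q)}) ≃ₐ[ℚ]
      (A ⧸ Ideal.span {g}) × (A ⧸ Ideal.span {1 + g * q})) := by
  have h1 : IsCoprime (Ideal.span {g}) (Ideal.span {1 + g * q}) := by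
    rw [Ideal.isCoprime_span_singleton_iff]
    exact ⟨-q, 1, by ring⟩
  have e1 := Ideal.quotientMulEquivQuotientProd _ _ h1
  rw [Ideal.span_singleton_mul_span_singleton] at e1
  exact ⟨AlgEquiv.ofRingEquiv (f := e1) fun x =>
    RingHom.map_rat_algebraMap e1.toRingHom x⟩

lemma factor_crt (hD : IsCData D.toCData) {r : ℕ} (G Q : MvPolynomial (Fin r) ℤ) :
    IsFactor (D.Mc (V (toQ G))) (D.Mc (V (toQ (G * (1 + G * Q))))) := by
  have h1 : toQ (G * (1 + G * Q)) = toQ G * (1 + toQ G * toQ Q) := by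
    unfold toQ
    rw [map_mul, map_add, map_mul, map_one]
  obtain ⟨e⟩ := crt_equiv (toQ G) (toQ Q)
  rw [h1]
  obtain ⟨e2⟩ := mc_alg hD e
  obtain ⟨e3⟩ := sum_aff hD (MvPolynomial (Fin r) ℚ ⧸ Ideal.span {toQ G})
    (MvPolynomial (Fin r) ℚ ⧸ Ideal.span {1 + toQ G * toQ Q}) inferInstance
  exact IsFactor.trans (B := D.Mc (V (toQ G)) ⊞ D.Mc (V (1 + toQ G * toQ Q)))
    ⟨biprod.inl, biprod.fst, biprod.inl_fst⟩ (isFactor_of_iso ⟨e3.symm ≪≫ e2.symm⟩)

/-- more variables -/
lemma ren_equiv {σ : Type} (F : MvPolynomial σ ℚ) (n : ℕ) {r : ℕ} (f : Fin n ⊕ σ ≃ Fin r) :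
    Nonempty (MvPolynomial (Fin n) (MvPolynomial σ ℚ ⧸ Ideal.span {F}) ≃ₐ[ℚ]
      (MvPolynomial (Fin r) ℚ ⧸ Ideal.span {rename f (rename Sum.inr F)})) := by
  let e0 := quotientEquivQuotientMvPolynomial (σ := Fin n) (Ideal.span {F})
  let e1 : MvPolynomial (Fin n) (MvPolynomial σ ℚ) ≃ₐ[ℚ] MvPolynomial (Fin r) ℚ :=
    (sumAlgEquiv ℚ (Fin n) σ).symm.trans (renameEquiv ℚ f)
  have h1 : Ideal.span {rename f (rename Sum.inr F)} =
      Ideal.map (e1 : MvPolynomial (Fin n) (MvPolynomial σ ℚ) →+* MvPolynomial (Fin r) ℚ)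
        (Ideal.map (C : MvPolynomial σ ℚ →+* MvPolynomial (Fin n) (MvPolynomial σ ℚ))
          (Ideal.span {F})) := by
    rw [Ideal.map_span, Set.image_singleton, Ideal.map_span, Set.image_singleton]
    congr 2
    have h2 : sumAlgEquiv ℚ (Fin n) σ (rename Sum.inr F) = C F :=
      DFunLike.congr_fun (sumAlgEquiv_comp_rename_inr (R := ℚ) (S₁ := Fin n) (S₂ := σ)) F
    change rename f (rename Sum.inr F) = rename f ((sumAlgEquiv ℚ (Fin n) σ).symm (C F))
    rw [← h2, AlgEquiv.symm_apply_apply]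
  exact ⟨(e0.restrictScalars ℚ).trans (Ideal.quotientEquivAlg _ _ e1 h1)⟩

/-- A motive which occurs in a hypersurface occurs in one over `ℤ` in more variables. -/
lemma occurs_ren (hD : IsOrd D) {R : E} {σ : Type} [Finite σ] (F : MvPolynomial σ ℚ) (n : ℕ)
    {r : ℕ} (f : Fin n ⊕ σ ≃ Fin r) {G : MvPolynomial (Fin r) ℤ} {N : ℤ} (hN : N ≠ 0)
    (hG : toQ G = MvPolynomial.C (N : ℚ) * rename f (rename Sum.inr F))
    (h : Occurs D R (aff ℚ (MvPolynomial σ ℚ ⧸ Ideal.span {F}))) : Occurs D R (V (toQ G)) := by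
  have hN' : (N : ℚ) ≠ 0 := by exact_mod_cast hN
  have i1 : Algebra.FiniteType ℚ
      (MvPolynomial (Fin n) (MvPolynomial σ ℚ ⧸ Ideal.span {F})) :=
    Algebra.FiniteType.trans (S := MvPolynomial σ ℚ ⧸ Ideal.span {F}) inferInstance inferInstance
  obtain ⟨e⟩ := ren_equiv F n f
  have h3 : Ideal.span {rename f (rename Sum.inr F)} = Ideal.span {toQ G} := by
    rw [hG]
    exact (Ideal.span_singleton_mul_left_unit
      ((isUnit_iff_ne_zero.mpr hN').map MvPolynomial.C) _).symm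
  exact occurs_alg hD (e.trans (Ideal.quotientEquivAlgOfEq ℚ h3)) (occurs_poly hD n h)

lemma ren_ne {σ : Type} {F : MvPolynomial σ ℚ} (hF : F ≠ 0) {n : ℕ}
    {r : ℕ} (f : Fin n ⊕ σ ≃ Fin r) {G : MvPolynomial (Fin r) ℤ} {N : ℤ} (hN : N ≠ 0)
    (hG : toQ G = MvPolynomial.C (N : ℚ) * rename f (rename Sum.inr F)) : G ≠ 0 := by
  have hN' : (N : ℚ) ≠ 0 := by exact_mod_cast hN
  rintro rfl
  rw [toQ, map_zero] at hG
  rcases mul_eq_zero.mp hG.symm with h1 | h1
  · exact hN' ((MvPolynomial.C_eq_zero).mp h1)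
  · rw [← map_zero (rename f), (rename_injective _ f.injective).eq_iff,
      ← map_zero (rename Sum.inr), (rename_injective _ Sum.inr_injective).eq_iff] at h1
    exact hF h1

end rat

end Pool.Agent.Helper24.SE
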