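import Pool.Agent.Helper24.SE.Disj
import Pool.Agent.Helper24.KF.Hn

/-!
# Power savings over the rational numbers
-/

set_option autoImplicit false
set_option linter.unusedSectionVars false

open CategoryTheory AlgebraicGeometry MvPolynomial Filter Pool.Agent.Y116.UV Pool.Agent.Helper62.EC

namespace Pool.Agent.Helper24.SE

open Pool.Agent.Helper24.KE (V U toQ exists_rep scalar_equiv)

variable {P : Sch ℚ → Prop} (hP : Cls True P) (hs : ∀ r : ℕ, P (aff ℚ (MvPolynomial (Fin r) ℚ)))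

include hP hs

/-- Exceptions give exceptions. -/
theorem bad_rat {r : ℕ} (G Q : MvPolynomial (Fin r) ℤ) (hG : ¬ P (U (toQ G))) :
    ¬ P (U (toQ (1 + G * Q))) ∨ ¬ P (U (toQ (G * (1 + G * Q)))) := by
  have h1 : toQ (1 + G * Q) = 1 + toQ G * toQ Q := by
    unfold toQ
    rw [map_add, map_mul, map_one]
  have h2 : toQ (G * (1 + G * Q)) = toQ G * (1 + toQ G * toQ Q) := by
    unfold toQ
    rw [map_mul, map_add, map_mul, map_one]
  rw [h1, h2]
  exact disj_one hP (hs r) _ _ hG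

lemma zero_rat {r : ℕ} : ¬ ¬ P (U (toQ (0 : MvPolynomial (Fin r) ℤ))) := by
  rw [not_not]
  have h : toQ (0 : MvPolynomial (Fin r) ℤ) = 0 := map_zero _
  rw [h]
  exact compl_zero hP (hs r)

/-- From principal open sets to schemes. -/
theorem dim_of_open {d : ℕ} (h : ∀ F : MvPolynomial (Fin (d + 1)) ℤ, P (U (toQ F))) (X : Sch ℚ)
    (hX : FT True X) (hd : topologicalKrullDim X.left ≤ d) : P X := by
  refine Pool.Agent.Helper19.UA.of_hyp hP (hs _) (fun F => ?_) X hX hd
  rw [← compl_iff hP (hs _)]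
  obtain ⟨F₀, N, hN, hF₀⟩ := exists_rep F
  have h1 := h F₀
  rw [hF₀] at h1
  obtain ⟨e⟩ := scalar_equiv F (a := (N : ℚ)) (by exact_mod_cast hN)
  exact iso_alg hP e h1

/-- From schemes to principal open sets. -/
theorem open_of_dim {d : ℕ} (h : ∀ X : Sch ℚ, FT True X → topologicalKrullDim X.left ≤ d → P X)
    (F : MvPolynomial (Fin (d + 1)) ℚ) : P (U F) := by
  refine ring_open hP F ?_ (hs _)
  by_cases hg : Ideal.span {F} = ⊥
  · rw [hg]
    exact iso_alg hP (AlgEquiv.quotientBot ℚ _).symm (hs _)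
  · refine h _ (ft_aff True) ?_
    rw [Pool.Agent.Z125.UN.topDim_aff]
    exact Pool.Agent.Z125.UN.dim_quot _ hg

/-- **One dimension.** -/
theorem saving_dim (d : ℕ) :
    (∀ X : Sch ℚ, FT True X → topologicalKrullDim X.left ≤ d → P X) ↔
      Saving (r := d + 1) (fun F => ¬ P (U (toQ F))) := by
  rw [← saving_iff (bad_rat hP hs) (zero_rat hP hs)]
  constructor
  · intro h F hF
    exact hF (open_of_dim hP hs h _)
  · intro h X hX hd
    exact dim_of_open hP hs (fun F => not_not.mp (h F)) X hX hd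

/-- **All dimensions.** -/
theorem saving_all : (∀ X : Sch ℚ, FT True X → P X) ↔
    ∃ᶠ r : ℕ in atTop, Saving (r := r) (fun F => ¬ P (U (toQ F))) := by
  constructor
  · intro h
    refine Frequently.of_forall fun r => ?_
    rw [← saving_iff (bad_rat hP hs) (zero_rat hP hs)]
    exact fun F hF => hF (h _ (ft_aff True))
  · intro h X hX
    refine of_affine' (P := P) hP.iso hP.total (fun B _ _ _ => ?_) X hX
    obtain ⟨N, hN⟩ := Pool.Agent.Helper24.KZ.exists_dim_aff (k := ℚ) B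
    obtain ⟨r, hr, hrN⟩ := (h.and_eventually (eventually_ge_atTop (N + 1))).exists
    obtain ⟨d, rfl⟩ : ∃ d, r = d + 1 := ⟨r - 1, by omega⟩
    refine (saving_dim hP hs d).mpr hr _ (ft_aff True) (hN.trans ?_)
    exact_mod_cast (by omega : N ≤ d)

/-- **One exception.** -/
theorem full_rat {r : ℕ} {G : MvPolynomial (Fin r) ℤ} (hG : ¬ P (U (toQ G))) {ε : ℝ}
    (hε : 0 < ε) : ∀ᶠ D : ℕ in atTop, ∀ᶠ B : ℕ in atTop, ((Box r D B).ncard : ℝ) ^ (1 - ε) <
      ((Exc (r := r) (fun F => ¬ P (U (toQ F))) D B).ncard : ℝ) :=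
  full (bad_rat hP hs) hG (fun h => zero_rat hP hs (h ▸ hG)) hε

end Pool.Agent.Helper24.SE
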