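import Pool.Graph.R_pool_sql_team_seeded_3997aac3.Results.MP_f3836a_nt.TensorsInEachDimension
import Pool.Agent.Helper67.SO.At
import Pool.Agent.Helper67.SO.Fib
import Pool.Agent.Helper24.SE.Disj

/-!
# Soulé's formula at one integer (after `Pool.Agent.Results.MP_f3836a_nt.OneIntegerOverZ` by Helper67)
-/

set_option autoImplicit false

namespace Pool.Agent.Helper24.SE

open CategoryTheory AlgebraicGeometry TensorProduct
open Pool.Agent.Y116.UV Q54.CU Q54.ZE Pool.Agent.Q27.SO Pool.Agent.Helper67.SO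
open Pool.Agent.Results.MP_f3836a_nt.TensorsInEachDimension (IsZeta order_unique)

/-- The formula of Soulé for `X` at the one integer `n`, where `C n i X = CH_n(X, i) ⊗ ℚ`: these spaces
have finite dimension, almost all of them vanish, the zeta function of `X` has a meromorphic
continuation to the plane, and each continuation to a connected set which contains `n` has the order
`∑ (-1)^(i+1) dim C n i X` at `n`. -/
structure SouleAt (C : ℤ → ℤ → Sch ℤ → ModuleCat.{0} ℚ) (n : ℤ) (X : Sch ℤ) : Prop where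
  finite : ∀ i, Module.Finite ℚ (C n i X)
  bounded : {i | ¬ Subsingleton (C n i X)}.Finite
  continuation : ∃ F, IsZeta X.left Set.univ F
  order : ∀ U F, IsZeta X.left U F → (n : ℂ) ∈ U → meromorphicOrderAt F n =
    ((∑ᶠ i : ℤ, ((i + 1).negOnePow : ℤ) * Module.finrank ℚ (C n i X) : ℤ) : WithTop ℤ)

section

/-- The orders of a continuation are integers. -/
lemma exists_ord {I : Type} {N : I → ℕ} {σ : ℝ} (h : Good N σ) {F : ℂ → ℂ}
    (hF : MeromorphicOn F Set.univ) {τ : ℝ} (h1 : ∀ s : ℂ, τ < s.re → F s = ∏' i, fac N s i) :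
    ∃ e : ℤ → ℤ, Ord N e ∧ ∀ n : ℤ, meromorphicOrderAt F n = ((e n : ℤ) : WithTop ℤ) := by
  have h2 : meromorphicOrderAt F ((max σ τ + 1 : ℝ) : ℂ) ≠ ⊤ := by
    intro hcon
    rw [meromorphicOrderAt_eq_top_iff] at hcon
    have h3 : {z : ℂ | max σ τ < z.re} ∈ nhds (((max σ τ + 1 : ℝ) : ℂ)) :=
      (isOpen_lt continuous_const Complex.continuous_re).mem_nhds (by
        change max σ τ < (((max σ τ + 1 : ℝ) : ℂ)).re
        rw [Complex.ofReal_re]
        linarith)
    have h4 := hcon.and (mem_nhdsWithin_of_mem_nhds h3)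
    obtain ⟨z, hz, hz'⟩ := h4.exists
    have hz2 : max σ τ < z.re := hz'
    rw [h1 z ((le_max_right _ _).trans_lt hz2), tprod_fac h ((le_max_left _ _).trans hz2.le)] at hz
    exact Complex.exp_ne_zero _ hz
  have h3 : ∀ s : ℂ, meromorphicOrderAt F s ≠ ⊤ := by
    intro s
    exact (hF.exists_meromorphicOrderAt_ne_top_iff_forall isConnected_univ).1
      ⟨⟨((max σ τ + 1 : ℝ) : ℂ), trivial⟩, h2⟩ ⟨s, trivial⟩
  refine ⟨fun n => (meromorphicOrderAt F (n : ℂ)).untop (h3 _), ⟨F, hF, ⟨τ, h1⟩, fun n => ?_⟩,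
    fun n => ?_⟩
  · rw [WithTop.coe_untop]
  · rw [WithTop.coe_untop]

/-- The formula of Soulé at `n` is the property `At`. -/
lemma at_iff (C : ℤ → ℤ → Sch ℤ → ModuleCat.{0} ℚ) (n : ℤ) {X : Sch ℤ} (hX : FT True X) :
    SouleAt C n X ↔ At C n X := by
  have hchi : (∑ᶠ i : ℤ, ((i + 1).negOnePow : ℤ) * Module.finrank ℚ (C n i X) : ℤ) =
      -chi fun i => C n i X := by
    change _ = -∑ᶠ i : ℤ, (i.negOnePow : ℤ) * (Module.finrank ℚ (C n i X) : ℤ)
    rw [← finsum_neg_distrib]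
    apply finsum_congr
    intro i
    rw [Int.negOnePow_succ]
    push_cast
    ring
  have hzero : ∀ i, Module.Finite ℚ (C n i X) →
      (Module.finrank ℚ (C n i X) ≠ 0 ↔ ¬ Subsingleton (C n i X)) := fun i h =>
    not_congr Module.finrank_zero_iff
  constructor
  · rintro ⟨h1, h2, ⟨F, hF⟩, h4⟩
    obtain ⟨σ, hσ⟩ := zgood X (ft_false hX)
    obtain ⟨τ, h5⟩ := hF.product
    obtain ⟨e, he, he2⟩ := exists_ord hσ hF.meromorphic (τ := τ) (fun s hs => (h5 s hs).2)
    refine ⟨⟨h1, h2.subset fun i hi => (hzero i (h1 i)).1 hi⟩, e, he, ?_⟩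
    have h6 := h4 _ F hF trivial
    rw [he2, hchi] at h6
    exact_mod_cast h6
  · rintro ⟨h1, e, ⟨F, h2, ⟨σ, h3⟩, h4⟩, h5⟩
    have hF : IsZeta X.left Set.univ F := ⟨isConnected_univ, h2, σ, fun s hs => ⟨trivial, h3 s hs⟩⟩
    refine ⟨fun i => h1.finite i, h1.supp.subset fun i hi =>
      (hzero i (h1.finite i)).2 hi, ⟨F, hF⟩, fun U G hG hn => ?_⟩
    rw [order_unique hG hF hn, h4, h5, hchi]

end


section

variable {C : ℤ → ℤ → Sch ℤ → ModuleCat.{0} ℚ}

/-- All closed subschemes of affine spaces. -/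
lemma at_all (hC : IsChow C) {n : ℤ}
    (h : ∀ (N : ℕ) (F : MvPolynomial (Fin N) ℤ),
      At C n (aff ℤ (MvPolynomial (Fin N) ℤ ⧸ Ideal.span {F}))) (X : Sch ℤ) (hX : FT True X) :
    At C n X := by
  have hP := cls_at hC n
  refine of_affine' (P := At C n) (sep := True) hP.iso hP.total ?_ X hX
  intro A _ _ hA
  obtain ⟨N, f, hf⟩ := Algebra.FiniteType.iff_quotient_mvPolynomial''.1 hA
  exact Pool.Agent.Helper62.EC.iso_alg hP (Ideal.quotientKerAlgEquivOfSurjective hf)
    (of_hyp hP (fun F => h N F) (RingHom.ker f))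

end


/-- The dimension of the fibres of a closed subscheme of the affine space. -/
lemma fib_quot {N d : ℕ} (hN : N ≤ d) (I : Ideal (MvPolynomial (Fin N) ℤ)) :
    FibLE d (X := (aff ℤ (MvPolynomial (Fin N) ℤ ⧸ I)).left)
      (aff ℤ (MvPolynomial (Fin N) ℤ ⧸ I)).hom := by
  refine (fib_affine (MvPolynomial (Fin N) ℤ ⧸ I)).2 fun K _ => ?_
  refine (dim_surj (Ideal.Quotient.mk I) Ideal.Quotient.mk_surjective K).trans ?_
  have e : MvPolynomial (Fin N) ℤ ⊗[ℤ] K ≃+* MvPolynomial (Fin N) K :=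
    ((Algebra.TensorProduct.comm ℤ (MvPolynomial (Fin N) ℤ) K).toRingEquiv).trans
      (MvPolynomial.algebraTensorAlgEquiv ℤ K).toRingEquiv
  rw [ringKrullDim_eq_of_ringEquiv e, MvPolynomial.ringKrullDim_of_isNoetherianRing,
    ringKrullDim_eq_zero_of_field, zero_add]
  simpa using (by exact_mod_cast hN : (N : WithBot ℕ∞) ≤ d)

end Pool.Agent.Helper24.SE
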