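import Pool.Agent.Helper24.SE.Rat
import Pool.Graph.R_pool_sql_team_seeded_2aa45f1a.Q282.UK.Ret
import Pool.Agent.Helper24.KD.Base

/-!
# Power savings for classes of motives which are closed under sums and direct summands
-/

set_option autoImplicit false
set_option linter.unusedSectionVars false

open CategoryTheory Limits AlgebraicGeometry MvPolynomial Filter Pool.Agent.Y116.UV
  Pool.Agent.Q282.UM Pool.Agent.Q282.UK Pool.Agent.Helper62.EC Pool.Agent.Helper24.KD

namespace Pool.Agent.Helper24.SE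

open Pool.Agent.Helper24.KE (V U toQ)
open Pool.Agent.Helper24.KZ (SumOf)

universe v u

variable {C : Type u} [Category.{v} C] [Preadditive C] [HasBinaryBiproducts C] [HasZeroObject C]
  [HasFiniteBiproducts C] {Q : C → Prop} (hQ : IsThick Q)

section general

variable {k : Type} [Field k] {D : Weights k C} (hD : IsWeightComplex D)

variable (Q D) in
/-- The weight complex of `X` is a direct summand, in the homotopy category, of a complex of motives with
the property `Q`. -/
def TW (X : Sch k) : Prop := TermsIn Q (D.W X)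

include hQ

lemma terms_dist_mid {K L M : HK C} (h : IsDistinguished K L M) (hK : TermsIn Q K)
    (hM : TermsIn Q M) : TermsIn Q L := by
  obtain ⟨a, b, d, hT⟩ := h
  exact (ext_terms hQ).triangle _ hT hK hM

lemma terms_dist_third {K L M : HK C} (h : IsDistinguished K L M) (hK : TermsIn Q K)
    (hL : TermsIn Q L) : TermsIn Q M := by
  obtain ⟨a, b, d, hT⟩ := h
  exact terms_third hQ hT hK hL

lemma terms_dist_first {K L M : HK C} (h : IsDistinguished K L M) (hL : TermsIn Q L)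
    (hM : TermsIn Q M) : TermsIn Q K := by
  obtain ⟨a, b, d, hT⟩ := h
  exact (ext_terms hQ).triangle _ (Pretriangulated.inv_rot_of_distTriang _ hT)
    (terms_shift _ _ hM) hL

include hD

theorem cls_tw : Cls True (TW Q D) where
  iso hX e h := (ext_terms hQ).iso (hD.iso hX e) h
  total i j h ht hZ hU := terms_dist_mid hQ (hD.triangle i j h ht) hU hZ
  opened i j h ht hZ hX := terms_dist_first hQ (hD.triangle i j h ht) hX hZ
  closed i j h ht hX hU := terms_dist_third hQ (hD.triangle i j h ht) hU hX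

lemma tw_proj {X : Sch k} (hX : IsSmoothProjective X) (h : TW Q D X) : Q (D.h X) :=
  (ext_terms hQ).to_object _ ((ext_terms hQ).iso (hD.projective X hX) h)

omit hD in
/-- Sums of motives, twisted. -/
lemma sumOf_twist {S : C → Prop} (T : C ⥤ C) [T.Additive] (hS : ∀ M, S M → Q (T.obj M)) {M : C}
    (h : SumOf S M) : Q (T.obj M) := by
  induction h with
  | zero M h => exact hQ.zero _ (T.map_isZero h)
  | of M h => exact hS M h
  | sum M N _ _ h1 h2 =>
    have : PreservesBinaryBiproduct M N T :=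
      (preservesBinaryBiproducts_of_preservesBiproducts T).preserves
    exact hQ.summand (IsSummand.of_iso (T.mapBiprod M N)) (hQ.sum _ _ h1 h2)
  | iso M N e _ h => exact hQ.summand (IsSummand.of_iso (T.mapIso e.some.symm)) h

theorem tw_dim {N : ℕ} (h : ∀ Y : Sch k, IsSmoothProjective Y →
    topologicalKrullDim Y.left ≤ N → Q (D.h Y)) (X : Sch k) (hX : FT True X)
    (hN : topologicalKrullDim X.left ≤ N) : TW Q D X := by
  obtain ⟨K, _, e, hK⟩ := hD.terms X hX N hN
  refine (ext_terms hQ).iso ⟨e.some.symm⟩ ((ext_terms hQ).of_terms K fun i => ?_)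
  refine sumOf_twist hQ (𝟭 C) ?_ (hK i)
  rintro M ⟨Y, h1, h2, ⟨e⟩⟩
  exact hQ.summand (IsSummand.of_iso e.symm) (h Y h1 h2)

lemma tw_space (ht : ∀ (n : ℤ) (Y : Sch k), IsSmoothProjective Y →
    topologicalKrullDim Y.left ≤ (0 : ℕ) → Q ((D.tw n).obj (D.h Y))) (r : ℕ) :
    TW Q D (aff k (MvPolynomial (Fin r) k)) := by
  obtain ⟨e⟩ := hD.bundle k (r + 1) _ (aff k k) _ (compl_id (k := k) k r)
  have h0 : topologicalKrullDim (aff k k).left ≤ (0 : ℕ) := by
    rw [Pool.Agent.Z125.UN.topDim_aff, ringKrullDim_eq_zero_of_field]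
    exact le_rfl
  obtain ⟨K, _, e', hK⟩ := hD.terms (aff k k) (ft_aff True) 0 h0
  have h1 : TermsIn Q (onHK (D.tw (1 - ((r + 1 : ℕ) : ℤ))) (D.W (aff k k))) := by
    refine (ext_terms hQ).iso ⟨((D.tw (1 - ((r + 1 : ℕ) : ℤ))).mapHomotopyCategory
      (ComplexShape.up ℤ)).mapIso e'.some.symm⟩ ?_
    refine (ext_terms hQ).of_terms (((D.tw (1 - ((r + 1 : ℕ) : ℤ))).mapHomologicalComplex
      (ComplexShape.up ℤ)).obj K) fun i => ?_
    refine sumOf_twist hQ (D.tw (1 - ((r + 1 : ℕ) : ℤ))) ?_ (hK i)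
    rintro M ⟨Y, a1, a2, ⟨e⟩⟩
    exact hQ.summand (IsSummand.of_iso ((D.tw _).mapIso e.symm)) (ht _ Y a1 a2)
  have h2 : TW Q D (jouS (f1 k r)) := (ext_terms hQ).iso ⟨e.symm⟩ h1
  exact iso_alg (cls_tw hQ hD) (jouOne k r) h2

end general

section rational

variable {D : Weights ℚ C} (hD : IsWeightComplex D)
  (ht : ∀ (n : ℤ) (Y : Sch ℚ), IsSmoothProjective Y → topologicalKrullDim Y.left ≤ (0 : ℕ) →
    Q ((D.tw n).obj (D.h Y)))

include hQ hD ht

theorem thick_dim (d : ℕ) : (∀ Y : Sch ℚ, IsSmoothProjective Y →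
    topologicalKrullDim Y.left ≤ d → Q (D.h Y)) ↔
      Saving (r := d + 1) (fun F => ¬ TW Q D (U (toQ F))) := by
  refine Iff.trans ?_ (saving_dim (cls_tw hQ hD) (tw_space hQ hD ht) d)
  exact ⟨fun h X hX hd => tw_dim hQ hD h X hX hd,
    fun h Y hY hd => tw_proj hQ hD hY (h Y (ft_projective hY) hd)⟩

theorem thick_all : (∀ Y : Sch ℚ, IsSmoothProjective Y → Q (D.h Y)) ↔
    ∃ᶠ r : ℕ in atTop, Saving (r := r) (fun F => ¬ TW Q D (U (toQ F))) := by
  refine Iff.trans ?_ (saving_all (cls_tw hQ hD) (tw_space hQ hD ht))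
  constructor
  · intro h X hX
    refine of_affine' (P := TW Q D) (cls_tw hQ hD).iso (cls_tw hQ hD).total
      (fun B _ _ _ => ?_) X hX
    obtain ⟨N, hN⟩ := Pool.Agent.Helper24.KZ.exists_dim_aff (k := ℚ) B
    exact tw_dim hQ hD (fun Y hY _ => h Y hY) _ (ft_aff True) hN
  · exact fun h Y hY => tw_proj hQ hD hY (h Y (ft_projective hY))

theorem thick_full {r : ℕ} {G : MvPolynomial (Fin r) ℤ} (hG : ¬ TW Q D (U (toQ G))) {ε : ℝ}
    (hε : 0 < ε) : ∀ᶠ D' : ℕ in atTop, ∀ᶠ B : ℕ in atTop, ((Box r D' B).ncard : ℝ) ^ (1 - ε) <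
      ((Exc (r := r) (fun F => ¬ TW Q D (U (toQ F))) D' B).ncard : ℝ) :=
  full_rat (cls_tw hQ hD) (tw_space hQ hD ht) hG hε

end rational

end Pool.Agent.Helper24.SE
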