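import Pool.Agent.Helper24.SE.Rat
import Pool.Graph.R_pool_sql_team_seeded_2aa45f1a.Q282.UK.Ret
import Pool.Agent.Helper24.KD.Base

/-!
# Power savings for the images of weight complexes under additive functors
-/

set_option autoImplicit false
set_option linter.unusedSectionVars false

open CategoryTheory Limits AlgebraicGeometry MvPolynomial Filter Pool.Agent.Y116.UV
  Pool.Agent.Q282.UM Pool.Agent.Q282.UK Pool.Agent.Helper62.EC Pool.Agent.Helper24.KD

namespace Pool.Agent.Helper24.SE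

open Pool.Agent.Helper24.KE (V U toQ)
open Pool.Agent.Helper24.KZ (SumOf)

universe v u v' u'

variable {C : Type u} [Category.{v} C] [Preadditive C] [HasBinaryBiproducts C] [HasZeroObject C]
  [HasFiniteBiproducts C] {C' : Type u'} [Category.{v'} C'] [Preadditive C']
  [HasBinaryBiproducts C'] [HasZeroObject C'] [HasFiniteBiproducts C']
  (Φ : C ⥤ C') [Φ.Additive] {Q : C' → Prop} (hQ : IsThick Q)

lemma dist_map {K L M : HK C} (h : IsDistinguished K L M) :
    IsDistinguished (onHK Φ K) (onHK Φ L) (onHK Φ M) := by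
  obtain ⟨a, b, d, hT⟩ := h
  exact ⟨_, _, _, (Φ.mapHomotopyCategory (ComplexShape.up ℤ)).map_distinguished _ hT⟩

lemma iso_map {K L : HK C} (e : Nonempty (K ≅ L)) : Nonempty (onHK Φ K ≅ onHK Φ L) :=
  ⟨(Φ.mapHomotopyCategory (ComplexShape.up ℤ)).mapIso e.some⟩

section general

variable {k : Type} [Field k] {D : Weights k C} (hD : IsWeightComplex D)

variable (Q D) in
/-- The image under `Φ` of the weight complex of `X` is a direct summand, in the homotopy category, of a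
complex of objects with the property `Q`. -/
def TF (X : Sch k) : Prop := TermsIn Q (onHK Φ (D.W X))

include hQ

lemma tf_mid {K L M : HK C'} (h : IsDistinguished K L M) (hK : TermsIn Q K)
    (hM : TermsIn Q M) : TermsIn Q L := by
  obtain ⟨a, b, d, hT⟩ := h
  exact (ext_terms hQ).triangle _ hT hK hM

lemma tf_third {K L M : HK C'} (h : IsDistinguished K L M) (hK : TermsIn Q K)
    (hL : TermsIn Q L) : TermsIn Q M := by
  obtain ⟨a, b, d, hT⟩ := h
  exact terms_third hQ hT hK hL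

lemma tf_first {K L M : HK C'} (h : IsDistinguished K L M) (hL : TermsIn Q L)
    (hM : TermsIn Q M) : TermsIn Q K := by
  obtain ⟨a, b, d, hT⟩ := h
  exact (ext_terms hQ).triangle _ (Pretriangulated.inv_rot_of_distTriang _ hT)
    (terms_shift _ _ hM) hL

/-- Sums of motives. -/
lemma sumOf_map {S : C → Prop} (hS : ∀ M, S M → Q (Φ.obj M)) {M : C}
    (h : SumOf S M) : Q (Φ.obj M) := by
  induction h with
  | zero M h => exact hQ.zero _ (Φ.map_isZero h)
  | of M h => exact hS M h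
  | sum M N _ _ h1 h2 =>
    have : PreservesBinaryBiproduct M N Φ :=
      (preservesBinaryBiproducts_of_preservesBiproducts Φ).preserves
    exact hQ.summand (IsSummand.of_iso (Φ.mapBiprod M N)) (hQ.sum _ _ h1 h2)
  | iso M N e _ h => exact hQ.summand (IsSummand.of_iso (Φ.mapIso e.some.symm)) h

include hD

theorem cls_tf : Cls True (TF Φ Q D) where
  iso hX e h := (ext_terms hQ).iso (iso_map Φ (hD.iso hX e)) h
  total i j h ht hZ hU := tf_mid hQ (dist_map Φ (hD.triangle i j h ht)) hU hZ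
  opened i j h ht hZ hX := tf_first hQ (dist_map Φ (hD.triangle i j h ht)) hX hZ
  closed i j h ht hX hU := tf_third hQ (dist_map Φ (hD.triangle i j h ht)) hU hX

lemma tf_proj {X : Sch k} (hX : IsSmoothProjective X) (h : TF Φ Q D X) : Q (Φ.obj (D.h X)) := by
  refine (ext_terms hQ).to_object _ ((ext_terms hQ).iso ⟨?_⟩
    ((ext_terms hQ).iso (iso_map Φ (hD.projective X hX)) h))
  exact (HomotopyCategory.quotient C' (ComplexShape.up ℤ)).mapIso
    ((HomologicalComplex.singleMapHomologicalComplex Φ (ComplexShape.up ℤ) 0).app (D.h X))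

theorem tf_dim {N : ℕ} (h : ∀ Y : Sch k, IsSmoothProjective Y →
    topologicalKrullDim Y.left ≤ N → Q (Φ.obj (D.h Y))) (X : Sch k) (hX : FT True X)
    (hN : topologicalKrullDim X.left ≤ N) : TF Φ Q D X := by
  obtain ⟨K, _, e, hK⟩ := hD.terms X hX N hN
  refine (ext_terms hQ).iso (iso_map Φ ⟨e.some.symm⟩) ((ext_terms hQ).of_terms
    ((Φ.mapHomologicalComplex (ComplexShape.up ℤ)).obj K) fun i => ?_)
  refine sumOf_map Φ hQ ?_ (hK i)
  rintro M ⟨Y, h1, h2, ⟨e⟩⟩
  exact hQ.summand (IsSummand.of_iso (Φ.mapIso e.symm)) (h Y h1 h2)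

/-- Affine spaces: only the twists by `n ≤ 0` are needed. -/
lemma tf_space (ht : ∀ (n : ℤ) (Y : Sch k), n ≤ 0 → IsSmoothProjective Y →
    topologicalKrullDim Y.left ≤ (0 : ℕ) → Q (Φ.obj ((D.tw n).obj (D.h Y)))) (r : ℕ) :
    TF Φ Q D (aff k (MvPolynomial (Fin r) k)) := by
  obtain ⟨e⟩ := hD.bundle k (r + 1) _ (aff k k) _ (compl_id (k := k) k r)
  have h0 : topologicalKrullDim (aff k k).left ≤ (0 : ℕ) := by
    rw [Pool.Agent.Z125.UN.topDim_aff, ringKrullDim_eq_zero_of_field]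
    exact le_rfl
  obtain ⟨K, _, e', hK⟩ := hD.terms (aff k k) (ft_aff True) 0 h0
  have h1 : TermsIn Q (onHK Φ (onHK (D.tw (1 - ((r + 1 : ℕ) : ℤ))) (D.W (aff k k)))) := by
    refine (ext_terms hQ).iso (iso_map Φ ⟨((D.tw (1 - ((r + 1 : ℕ) : ℤ))).mapHomotopyCategory
      (ComplexShape.up ℤ)).mapIso e'.some.symm⟩) ?_
    refine (ext_terms hQ).of_terms ((Φ.mapHomologicalComplex (ComplexShape.up ℤ)).obj
      (((D.tw (1 - ((r + 1 : ℕ) : ℤ))).mapHomologicalComplex (ComplexShape.up ℤ)).obj K))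
      fun i => ?_
    refine sumOf_map (D.tw (1 - ((r + 1 : ℕ) : ℤ)) ⋙ Φ) hQ ?_ (hK i)
    rintro M ⟨Y, a1, a2, ⟨e⟩⟩
    exact hQ.summand (IsSummand.of_iso ((D.tw (1 - ((r + 1 : ℕ) : ℤ)) ⋙ Φ).mapIso e.symm))
      (ht _ Y (by push_cast; omega) a1 a2)
  have h2 : TF Φ Q D (jouS (f1 k r)) := (ext_terms hQ).iso (iso_map Φ ⟨e.symm⟩) h1
  exact iso_alg (cls_tf Φ hQ hD) (jouOne k r) h2

end general

section rational

variable {D : Weights ℚ C} (hD : IsWeightComplex D)
  (ht : ∀ (n : ℤ) (Y : Sch ℚ), n ≤ 0 → IsSmoothProjective Y →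
    topologicalKrullDim Y.left ≤ (0 : ℕ) → Q (Φ.obj ((D.tw n).obj (D.h Y))))

include hQ hD ht

theorem tf_dim_iff (d : ℕ) : (∀ Y : Sch ℚ, IsSmoothProjective Y →
    topologicalKrullDim Y.left ≤ d → Q (Φ.obj (D.h Y))) ↔
      Saving (r := d + 1) (fun F => ¬ TF Φ Q D (U (toQ F))) := by
  refine Iff.trans ?_ (saving_dim (cls_tf Φ hQ hD) (tf_space Φ hQ hD ht) d)
  exact ⟨fun h X hX hd => tf_dim Φ hQ hD h X hX hd,
    fun h Y hY hd => tf_proj Φ hQ hD hY (h Y (ft_projective hY) hd)⟩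

theorem tf_full {r : ℕ} {G : MvPolynomial (Fin r) ℤ} (hG : ¬ TF Φ Q D (U (toQ G))) {ε : ℝ}
    (hε : 0 < ε) : ∀ᶠ D' : ℕ in atTop, ∀ᶠ B : ℕ in atTop, ((Box r D' B).ncard : ℝ) ^ (1 - ε) <
      ((Exc (r := r) (fun F => ¬ TF Φ Q D (U (toQ F))) D' B).ncard : ℝ) :=
  full_rat (cls_tf Φ hQ hD) (tf_space Φ hQ hD ht) hG hε

theorem tf_disjoint {r : ℕ} (P G : MvPolynomial (Fin r) ℤ)
    (hPG : Ideal.span {MvPolynomial.map (algebraMap ℤ ℚ) G} ⊔
      Ideal.span {MvPolynomial.map (algebraMap ℤ ℚ) P} = ⊤)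
    (hP : ¬ TF Φ Q D (U (toQ P))) :
    ¬ TF Φ Q D (U (toQ G)) ∨ ¬ TF Φ Q D (U (toQ (P * G))) := by
  refine disj_compl (cls_tf Φ hQ hD) (tf_space Φ hQ hD ht r)
    (MvPolynomial.map (algebraMap ℤ ℚ) P)
    (MvPolynomial.map (algebraMap ℤ ℚ) G) hPG hP |>.imp id fun h => ?_
  have h1 : toQ (P * G) = MvPolynomial.map (algebraMap ℤ ℚ) P *
      MvPolynomial.map (algebraMap ℤ ℚ) G := map_mul _ _ _
  rw [h1]
  exact h

end rational

end Pool.Agent.Helper24.SE
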